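import Pool.Agent.N210.FV.Main

/-!
# Statements of the leaves
-/

set_option autoImplicit false

namespace Pool.Agent.N898.BU

open Filter Topology Complex MeasureTheory Set Asymptotics
open Pool.Agent.N210.FV

/-- a sparse set of integers and its Dirichlet series -/
def S_CS : Prop := ∀ {P : Set ℕ}, (∀ p ∈ P, 2 ≤ p) →
    ((fun x : ℝ => ((({p : ℕ | p ∈ P ∧ (p : ℝ) ≤ x}.ncard : ℕ)) : ℝ)) =o[atTop]
      fun x : ℝ => Real.sqrt x / Real.log x) →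
    (∀ σ : ℝ, 1 / 2 < σ → Summable fun p : P => Real.log (p : ℕ) * ((p : ℕ) : ℝ) ^ (-σ)) ∧
    Tendsto (fun δ : ℝ => δ * ∑' p : P, Real.log (p : ℕ) * ((p : ℕ) : ℝ) ^ (-(1 / 2 + δ)))
      (𝓝[>] 0) (𝓝 0)

/-- the functional equation of the zeta function, and its order -/
def S_ZF : Prop := Ent riemannZeta₁ ∧ ∀ s : ℂ,
    gi [0] (1 - s) * (riemannZeta₁ s * ((1 - s) - 1)) =
      gi [0] s * (riemannZeta₁ (1 - s) * (s - 1))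

/-- growth of the elementary term of the functional equation on lines left of `Re s = 1/2` -/
def S_HG : Prop := ∀ (μ : List ℂ) {l l' : List (ℕ × ℂ)} (q : ℝ),
    (∀ x ∈ l, 1 < x.1) → (∀ x ∈ l', 1 < x.1) →
    ∃ η₀ : ℝ, 0 < η₀ ∧ ∀ η : ℝ, 0 < η → η < η₀ →
      Continuous (fun t : ℝ => HH μ l l' q (((1 / 2 - η : ℝ) : ℂ) + t * I)) ∧
      ∃ C : ℝ, ∀ t : ℝ, ‖HH μ l l' q (((1 / 2 - η : ℝ) : ℂ) + t * I) +
        ((μ.length * Real.log (1 + |t|) : ℝ) : ℂ)‖ ≤ C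

/-- Gaussian means of a function with logarithmic growth -/
def S_GG : Prop := ∀ {H : ℝ → ℂ}, Continuous H → ∀ {D C x : ℝ}, 0 < D →
    (∀ t : ℝ, ‖H t + ((D * Real.log (1 + |t|) : ℝ) : ℂ)‖ ≤ C) → ∀ M : ℝ,
    ∀ᶠ T : ℝ in atTop, ∀ Y : ℝ, T ^ (9 / 8 : ℝ) ≤ Y → Y ≤ T ^ (9 / 8 : ℝ) + 1 →
      M * T ≤ ‖∫ t in (-Y)..Y, H t * W T x 0 t‖

/-- the series over the prime squares and higher powers -/
def S_QL : Prop := ∀ S : Finset ℕ,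
    (∀ σ : ℝ, 1 / 2 < σ → Summable fun i : PS S × ℕ =>
      (if i.2 = 0 then 0 else Real.log (i.1 : ℕ)) * Real.exp (-(σ * oo S 1 i))) ∧
    ∀ τ : ℝ, Tendsto (fun δ : ℝ => (δ : ℂ) * Ds (fun i : PS S × ℕ =>
      ((if i.2 = 0 then 0 else Real.log (i.1 : ℕ) : ℝ) : ℂ)) (oo S 1) (1 / 2 + δ + τ * I))
      (𝓝[>] 0) (𝓝 (if τ = 0 then 1 / 2 else 0))

/-- from windows to Gaussian sums -/
def S_WS : Prop := ∀ {m : ℂ → ℝ} {B : ℝ}, (∀ z, m z = 0 ∨ 1 ≤ |m z|) →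
    (∀ F : Finset ℂ, (∀ z ∈ F, z.re = 1 / 2) → (∀ z ∈ F, ∀ z' ∈ F, |z.im - z'.im| ≤ 1) →
      ∑ z ∈ F, (m z) ^ 2 ≤ B) →
    ∃ C : ℝ, 0 ≤ C ∧ ∀ T : ℝ, 1 ≤ T → ∀ F : Finset ℂ, (∀ z ∈ F, z.re = 1 / 2) →
      ∑ z ∈ F, |m z| * Real.exp (-(z.im ^ 2 / T ^ 2)) ≤ C * T

end Pool.Agent.N898.BU
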