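import Pool.Agent.N898.BU.Ser

/-!
# The main theorem for families of L-functions with nonnegative coefficients
-/

set_option autoImplicit false

namespace Pool.Agent.N898.BU

open Filter Topology Complex Set Asymptotics
open Pool.Agent.N210.FV

/-- `R(s) = (s - 1)^r L(s)`, `-L'/L(s) = ∑ b(p, k) log p p^{-ks}` with `b ≥ 0`, and `m` gamma
factors -/
structure RS (S : Finset ℕ) (r : ℕ) (b : ℕ → ℕ → ℝ) (m : ℕ) (R : ℂ → ℂ) : Prop where
  ent : Ent R
  one : R 1 ≠ 0
  b0 : ∀ p k, 0 ≤ b p k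
  bs : ∀ x : ℝ, 1 < x → Summable fun i : PS S × ℕ => b i.1 (i.2 + 1) * Real.log (i.1 : ℕ) *
    Real.exp (-(x * oo S 1 i))
  ld : ∀ s : ℂ, 1 < s.re → logDeriv R s - r * (s - 1)⁻¹ =
    -Ds (fun i : PS S × ℕ => ((b i.1 (i.2 + 1) * Real.log (i.1 : ℕ) : ℝ) : ℂ)) (oo S 1) s
  fe : ∃ (μ : List ℂ) (l l' : List (ℕ × ℂ)) (q : ℝ) (ε : ℂ), 0 < q ∧ ε ≠ 0 ∧ μ.length = m ∧
    (∀ x ∈ l, x.1.Prime ∧ x.1 ∈ S) ∧ (∀ x ∈ l', x.1.Prime ∧ x.1 ∈ S) ∧
    ∀ s, (q : ℂ) ^ s * gi μ (1 - s) * ef l (1 - s) * ef l' s * (R s * ((1 - s) - 1) ^ r) =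
      ε * (q : ℂ) ^ (1 - s) * gi μ s * ef l s * ef l' (1 - s) * (R (1 - s) * (s - 1) ^ r)

variable {ι : Type*} [Fintype ι] {S : Finset ℕ} {r : ι → ℕ} {b : ι → ℕ → ℕ → ℝ} {m : ι → ℕ} {R : ι → ℂ → ℂ}
  {Z : ℂ → ℂ}

/-- the functions -/
def gz (Z : ℂ → ℂ) (R : ι → ℂ → ℂ) (o : Option ι) : ℂ → ℂ := o.elim Z R

/-- the weights -/
def wz (r : ι → ℕ) (o : Option ι) : ℝ := o.elim (-((∑ i, r i : ℕ) : ℝ)) fun _ => 1

/-- the orders of the poles -/
def rz (r : ι → ℕ) (o : Option ι) : ℕ := o.elim 1 r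

/-- the coefficients -/
def bz (b : ι → ℕ → ℕ → ℝ) (o : Option ι) : ℕ → ℕ → ℝ := o.elim (fun _ _ => 1) b

/-- the degrees -/
def mz (m : ι → ℕ) (o : Option ι) : ℕ := o.elim 1 m

/-- the sum of the coefficients -/
noncomputable def be' (S : Finset ℕ) (b : ι → ℕ → ℕ → ℝ) (i : PS S × ℕ) : ℝ :=
  ∑ j, b j i.1 (i.2 + 1)

omit [Fintype ι] in
theorem rs_all (h : ∀ i, RS S (r i) (b i) (m i) (R i)) (hZ : RS S 1 (fun _ _ => 1) 1 Z)
    (o : Option ι) : RS S (rz r o) (bz b o) (mz m o) (gz Z R o) := by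
  cases o with
  | none => exact hZ
  | some i => exact h i

theorem wz_sum : ∑ o : Option ι, (wz r o : ℂ) * (rz r o : ℂ) = 0 := by
  rw [Fintype.sum_option]
  simp [wz, rz]

theorem A0_right (h : ∀ i, RS S (r i) (b i) (m i) (R i)) (hZ : RS S 1 (fun _ _ => 1) 1 Z)
    (hq : ∀ σ : ℝ, 1 / 2 < σ → Summable fun i => cq (be' S b) ((∑ i, r i : ℕ) : ℝ) i *
      Real.exp (-(σ * oo S 1 i)))
    (ha : ∀ σ : ℝ, 1 < σ → Summable fun i => ca (be' S b) ((∑ i, r i : ℕ) : ℝ) i *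
      Real.exp (-(σ * oo S 1 i))) {s : ℂ} (hs : 1 < s.re) :
    A0 (wz r) (gz Z R) s = Ds (fun i => (cq (be' S b) ((∑ i, r i : ℕ) : ℝ) i : ℂ)) (oo S 1) s -
      Ds (fun i => (ca (be' S b) ((∑ i, r i : ℕ) : ℝ) i : ℂ)) (oo S 1) s := by
  set β := be' S b with hβ
  set d : ℝ := ((∑ i, r i : ℕ) : ℝ) with hd
  have hβ0 : ∀ i, 0 ≤ β i := fun i => Finset.sum_nonneg fun j _ => (h j).b0 _ _
  have hd0 : 0 ≤ d := Nat.cast_nonneg _
  have hl0 : ∀ i : PS S × ℕ, 0 ≤ Real.log (i.1 : ℕ) := fun i => i.1.log_pos.le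
  have e1 : ∀ o : Option ι, logDeriv (gz Z R o) s = rz r o * (s - 1)⁻¹ -
      Ds (fun i : PS S × ℕ => ((bz b o i.1 (i.2 + 1) * Real.log (i.1 : ℕ) : ℝ) : ℂ)) (oo S 1) s := by
    intro o
    linear_combination (rs_all h hZ o).ld s hs
  have e2 : A0 (wz r) (gz Z R) s = -∑ o : Option ι, (wz r o : ℂ) *
      Ds (fun i : PS S × ℕ => ((bz b o i.1 (i.2 + 1) * Real.log (i.1 : ℕ) : ℝ) : ℂ)) (oo S 1) s := by
    unfold A0
    simp_rw [e1, mul_sub, Finset.sum_sub_distrib, ← mul_assoc, ← Finset.sum_mul]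
    rw [wz_sum]
    simp
  have e3 : ∑ o : Option ι, (wz r o : ℂ) *
      Ds (fun i : PS S × ℕ => ((bz b o i.1 (i.2 + 1) * Real.log (i.1 : ℕ) : ℝ) : ℂ)) (oo S 1) s =
      Ds (fun i => ((ca β d i - cq β d i : ℝ) : ℂ)) (oo S 1) s := by
    unfold Ds
    simp_rw [← tsum_mul_left]
    rw [← Summable.tsum_finsetSum]
    · refine tsum_congr fun i => ?_
      rw [ca_cq, Fintype.sum_option]
      simp only [wz, bz, Option.elim, hβ, be', hd]
      push_cast
      simp only [one_mul]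
      rw [← Finset.sum_mul, ← Finset.sum_mul]
      ring
    · intro o _
      refine (Ds_summ (a := fun i : PS S × ℕ => bz b o i.1 (i.2 + 1) * Real.log (i.1 : ℕ))
        (fun i => mul_nonneg ((rs_all h hZ o).b0 _ _) (hl0 i)) ?_).mul_left _
      exact (rs_all h hZ o).bs _ hs
  rw [e2, e3]
  have s1 := Ds_summ (a := ca β d) (ca_nonneg hβ0) (s := s) (ha _ hs)
  have s2 := Ds_summ (a := cq β d) (cq_nonneg hd0) (s := s) (hq _ (by linarith))
  unfold Ds
  rw [← s2.tsum_sub s1, ← tsum_neg]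
  refine tsum_congr fun i => ?_
  push_cast
  ring

theorem ca_summ (h : ∀ i, RS S (r i) (b i) (m i) (R i)) {σ : ℝ} (hσ : 1 < σ) :
    Summable fun i => ca (be' S b) ((∑ i, r i : ℕ) : ℝ) i * Real.exp (-(σ * oo S 1 i)) := by
  have hβ0 : ∀ i, 0 ≤ be' S b i := fun i => Finset.sum_nonneg fun j _ => (h j).b0 _ _
  have h1 : Summable fun i : PS S × ℕ => ∑ j, b j i.1 (i.2 + 1) * Real.log (i.1 : ℕ) *
    Real.exp (-(σ * oo S 1 i)) := summable_sum fun j _ => (h j).bs σ hσ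
  refine Summable.of_nonneg_of_le (fun i => mul_nonneg (ca_nonneg hβ0 i) (Real.exp_pos _).le)
    (fun i => ?_) h1
  rw [← Finset.sum_mul, ← Finset.sum_mul]
  exact mul_le_mul_of_nonneg_right (ca_le (Nat.cast_nonneg _) hβ0 i) (Real.exp_pos _).le

theorem mm_int (z : ℂ) : ∃ n : ℤ, mm (wz r) (gz Z R) z = n := by
  refine ⟨-((∑ i, r i : ℕ) : ℤ) * mo Z z + ∑ i, (mo (R i) z : ℤ), ?_⟩
  unfold mm
  rw [Fintype.sum_option]
  simp only [wz, gz, Option.elim]
  push_cast
  simp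

theorem mm_nonneg (hZe : Ent Z) {z : ℂ} (hz : Z z ≠ 0) :
    0 ≤ mm (wz r) (gz Z R) z := by
  unfold mm
  rw [Fintype.sum_option]
  simp only [wz, gz, Option.elim]
  obtain ⟨-, -, h1, -⟩ := mo_spec hZe.diff hZe.ne z
  rw [h1 hz]
  simp only [Nat.cast_zero, mul_zero, zero_add, one_mul]
  exact Finset.sum_nonneg fun i _ => Nat.cast_nonneg _

theorem main_asm (hCS : S_CS) (hHG : S_HG) (hGG : S_GG) (hQL : S_QL) (hWS : S_WS)
    (h : ∀ i, RS S (r i) (b i) (m i) (R i)) (hZ : RS S 1 (fun _ _ => 1) 1 Z)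
    (hZβ : ∀ β : ℝ, 1 / 2 < β → β ≤ 1 → Z β ≠ 0) (hm : ∑ i, r i < ∑ i, m i)
    (hP : (fun x : ℝ => ((({p : ℕ | p ∈ PP (be' S b) ((∑ i, r i : ℕ) : ℝ) ∧
      (p : ℝ) ≤ x}.ncard : ℕ)) : ℝ)) =o[atTop] fun x : ℝ => Real.sqrt x / Real.log x) : False := by
  classical
  set β := be' S b with hβ
  set d : ℝ := ((∑ i, r i : ℕ) : ℝ) with hd
  set w := wz r with hw
  set g := gz Z R with hg
  have hall := rs_all h hZ
  have hβ0 : ∀ i, 0 ≤ β i := fun i => Finset.sum_nonneg fun j _ => (h j).b0 _ _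
  have hd0 : 0 ≤ d := Nat.cast_nonneg _
  have hdiff : ∀ o, Differentiable ℂ (g o) := fun o => (hall o).ent.diff
  have hne : ∀ o, ∃ s, g o s ≠ 0 := fun o => (hall o).ent.ne
  obtain ⟨hqs, hql⟩ := cq_data hCS hQL hd0 hβ0 hP
  have hQd := Ds_dOn (a := cq β d) (cq_nonneg hd0) hqs
  have hA : ∀ s : ℂ, 1 < s.re → A0 w g s = Ds (fun i => (cq β d i : ℂ)) (oo S 1) s -
      Ds (fun i => (ca β d i : ℂ)) (oo S 1) s := fun s hs =>
    A0_right h hZ hqs (fun σ hσ => ca_summ h hσ) hs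
  have has := landau' (w := w) hdiff hne (ca_nonneg hβ0) hQd (fun t ht => ca_summ h ht) hA
    (fun β' h1 h2 => mm_nonneg hZ.ent (hZβ β' h1 h2))
  have hAd := Ds_dOn (a := ca β d) (ca_nonneg hβ0) has
  have hright := right_of (w := w) hdiff hne (σ := 1 / 2) (σ₁ := 1) (hQd.sub hAd)
    (fun s hs _ => hA s hs)
  have hpd : PD w g (ca β d) (cq β d) d :=
    ⟨fun o => (hall o).ent, ca_nonneg hβ0, has, hright, hql⟩
  obtain ⟨B, hB⟩ := hpd.window
  obtain ⟨C1, hC1, hb1⟩ := bd_of_lim (ca_nonneg hβ0) has (hpd.lim 0)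
  obtain ⟨C2, hC2, hb2⟩ := bd_of_lim (cq_nonneg hd0) hqs (hql 0)
  choose μ l l' q ε hq hε hμ hl hl' hfe using fun o => (hall o).fe
  -- a frequency
  obtain ⟨p₀, hp₀S, hp₀⟩ := Nat.exists_infinite_primes (S.sup id + 1)
  have hp₀n : p₀ ∉ S := by
    intro h1
    have := Finset.le_sup (f := id) h1
    simp only [id] at this
    omega
  set ω : ℝ := Real.log p₀ with hω
  have hω0 : 0 < ω := Real.log_pos (by exact_mod_cast hp₀.one_lt)
  have hfreq : ∀ x : ℕ, x.Prime → x ∈ S → Real.log x ≠ 0 ∧ ∀ n : ℤ, ω ≠ n * Real.log x := by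
    intro x hx hxS
    have hlog : 0 < Real.log x := Real.log_pos (by exact_mod_cast hx.one_lt)
    refine ⟨hlog.ne', fun n hn => ?_⟩
    have h1 : 0 < (n : ℝ) := by
      by_contra hcon
      push Not at hcon
      have := mul_nonpos_of_nonpos_of_nonneg hcon hlog.le
      linarith
    have h2 : 0 < n := by exact_mod_cast h1
    obtain ⟨k, rfl⟩ := Int.eq_ofNat_of_zero_le h2.le
    have h3 := prime_pow_log hp₀ hx (a := 1) (b := k) one_ne_zero (by
      rw [Nat.cast_one, one_mul]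
      exact_mod_cast hn)
    exact hp₀n (h3.1 ▸ hxS)
  set H : ℂ → ℂ := fun s => ∑ o, (w o : ℂ) * HH (μ o) (l o) (l' o) (q o) s with hH
  have hT : Tame ω H := Tame.sum hω0.ne' Finset.univ fun o _ =>
    (HH_tame hω0.ne' (μ o) (q o) (fun x hx => hfreq x.1 (hl o x hx).1 (hl o x hx).2)
      (fun x hx => hfreq x.1 (hl' o x hx).1 (hl' o x hx).2)).const_mul (w o : ℂ)
  obtain ⟨η₀, hη₀, hT⟩ := hT
  choose η₁ hη₁ hη₁' using fun o => hHG (μ o) (l := l o) (l' := l' o) (q o)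
    (fun x hx => (hl o x hx).1.one_lt) (fun x hx => (hl' o x hx).1.one_lt)
  obtain ⟨o₀, -, ho₀⟩ := Finset.exists_min_image Finset.univ η₁ ⟨none, Finset.mem_univ _⟩
  set η : ℝ := min (min η₀ (η₁ o₀)) (1 / 4) / 2 with hη
  have hη1 : 0 < min (min η₀ (η₁ o₀)) (1 / 4) := lt_min (lt_min hη₀ (hη₁ o₀)) (by norm_num)
  have hη0 : 0 < η := by positivity
  have hηa : min (min η₀ (η₁ o₀)) (1 / 4) ≤ min η₀ (η₁ o₀) := min_le_left _ _
  have hη2 : η < η₀ := by
    have := min_le_left η₀ (η₁ o₀)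
    linarith
  have hη3 : ∀ o, η < η₁ o := by
    intro o
    have h1 := min_le_right η₀ (η₁ o₀)
    have h2 := ho₀ o (Finset.mem_univ _)
    linarith
  have hη4 : η < 1 / 4 := by
    have := min_le_right (min η₀ (η₁ o₀)) (1 / 4)
    linarith
  obtain ⟨hc, -, C3, hC3, hC3b⟩ := hT η hη0 hη2
  choose hHc Cg hCg using fun o => hη₁' o η hη0 (hη3 o)
  set C : ℝ := 1 + C3 + C1 + C2 with hC
  have hDs : ∀ s : ℂ, 1 / 2 < s.re → Ds (fun i => ((ca β d i - cq β d i : ℝ) : ℂ)) (oo S 1) s =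
      Ds (fun i => (ca β d i : ℂ)) (oo S 1) s - Ds (fun i => (cq β d i : ℂ)) (oo S 1) s := by
    intro s hs
    have s1 := Ds_summ (a := ca β d) (ca_nonneg hβ0) (s := s) (has _ hs)
    have s2 := Ds_summ (a := cq β d) (cq_nonneg hd0) (s := s) (hqs _ hs)
    unfold Ds
    rw [← s1.tsum_sub s2]
    refine tsum_congr fun i => ?_
    push_cast
    ring
  have hright' : ∀ s : ℂ, 1 / 2 < s.re → mm w g s = 0 ∧ AA w g s =
      -Ds (fun i => ((ca β d i - cq β d i : ℝ) : ℂ)) (oo S 1) s := by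
    intro s hs
    refine ⟨(hright s hs).1, ?_⟩
    rw [(hright s hs).2, hDs s hs]
    simp only [Pi.sub_apply]
    ring
  have hset : Su w g (fun i => ((ca β d i - cq β d i : ℝ) : ℂ)) (oo S 1) η H C B := by
    refine ⟨fun o => (hall o).ent, fun i => oo_pos one_pos i, hη0, hη4, by linarith, ?_,
      hright', ?_, ?_, ?_, ?_, hB, ?_, ?_⟩
    · -- summability
      refine Summable.of_nonneg_of_le (fun i => by positivity) (fun i => ?_)
        ((has (1 / 2 + η) (by linarith)).add (hqs (1 / 2 + η) (by linarith)))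
      rw [Complex.norm_real, Real.norm_eq_abs, ← add_mul, mul_comm (oo S 1 i)]
      refine mul_le_mul_of_nonneg_right ?_ (Real.exp_pos _).le
      have h1 := ca_nonneg (d := d) hβ0 i
      have h2 := cq_nonneg (β := β) hd0 i
      rw [abs_le]
      constructor <;> linarith
    · -- the left side
      intro s hs hs2
      have hs3 : 1 / 2 < (1 - s).re := by
        rw [sub_re, one_re]
        linarith
      refine AA_of_eq (B := fun s => Ds (fun i => ((ca β d i - cq β d i : ℝ) : ℂ)) (oo S 1)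
        (1 - s) + H s) hdiff hne ?_ ?_
      · refine ContinuousAt.add ?_ (hc s hs hs2)
        have h3 : ContinuousAt (Ds (fun i => ((ca β d i - cq β d i : ℝ) : ℂ)) (oo S 1))
            (1 - s) := by
          have ho : {s : ℂ | 1 / 2 < s.re} ∈ 𝓝 (1 - s) :=
            (isOpen_lt continuous_const continuous_re).mem_nhds hs3
          have h4 := ((hAd.sub hQd).differentiableAt ho).continuousAt
          refine h4.congr ?_
          filter_upwards [ho] with u hu
          exact (hDs u hu).symm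
        exact ContinuousAt.comp (f := fun s : ℂ => 1 - s) h3 (by fun_prop)
      · have e1 : ∀ᶠ u in 𝓝[≠] s, 1 / 2 < (1 - u).re := by
          refine mem_nhdsWithin_of_mem_nhds ?_
          have : IsOpen {u : ℂ | 1 / 2 < (1 - u).re} :=
            isOpen_lt continuous_const (continuous_re.comp (continuous_const.sub continuous_id))
          exact this.mem_nhds hs3
        have e2 : ∀ᶠ u in 𝓝[≠] s, ∀ o, g o (1 - u) ≠ 0 := by
          rw [eventually_all]
          exact fun o => ev_refl (fun z => ev_ne (hdiff o) (hne o) z) s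
        have e3 : ∀ᶠ u in 𝓝[≠] s, ∀ o, gi (μ o) u ≠ 0 ∧ gi (μ o) (1 - u) ≠ 0 ∧
            ef (l o) u ≠ 0 ∧ ef (l o) (1 - u) ≠ 0 ∧ ef (l' o) u ≠ 0 ∧ ef (l' o) (1 - u) ≠ 0 := by
          rw [eventually_all]
          intro o
          have a1 : ∀ z, ∀ᶠ u in 𝓝[≠] z, gi (μ o) u ≠ 0 := ev_ne (gi_diff _) (gi_ne _)
          have a2 : ∀ z, ∀ᶠ u in 𝓝[≠] z, ef (l o) u ≠ 0 := ef_ev fun x hx => (hl o x hx).1.one_lt
          have a3 : ∀ z, ∀ᶠ u in 𝓝[≠] z, ef (l' o) u ≠ 0 := ef_ev fun x hx => (hl' o x hx).1.one_lt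
          filter_upwards [a1 s, ev_refl a1 s, a2 s, ev_refl a2 s, a3 s, ev_refl a3 s] with
            u b1 b2 b3 b4 b5 b6
          exact ⟨b1, b2, b3, b4, b5, b6⟩
        have hDd : ∀ k : ℕ, Differentiable ℂ fun u : ℂ => (u - 1) ^ k := fun k => by fun_prop
        have hDl : ∀ (k : ℕ) (v : ℂ), logDeriv (fun u : ℂ => (u - 1) ^ k) v = k * (v - 1)⁻¹ := by
          intro k v
          have hd1 : HasDerivAt (fun s : ℂ => s - 1) 1 v := (hasDerivAt_id v).sub_const 1
          rw [logDeriv_fun_pow hd1.differentiableAt, logDeriv_apply, hd1.deriv, one_div]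
        have hDn : ∃ u : ℂ, (fun u : ℂ => u - 1) u ≠ 0 := ⟨0, by norm_num⟩
        have e4 : ∀ z, ∀ᶠ u in 𝓝[≠] z, (fun u : ℂ => u - 1) u ≠ 0 := ev_ne (by fun_prop) hDn
        filter_upwards [e1, e2, e3, e4 s, ev_refl e4 s] with u h1 h2 h3 h5 h6 h4
        have h7 : A0 w g (1 - u) = -Ds (fun i => ((ca β d i - cq β d i : ℝ) : ℂ)) (oo S 1)
            (1 - u) := by
          rw [← AA_eq hdiff hne h2]
          exact (hright' (1 - u) h1).2
        have h8 : A0 w g u = -A0 w g (1 - u) + H u := by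
          have h9 : ∀ o, logDeriv (g o) u - rz r o * (u - 1)⁻¹ =
              -(logDeriv (g o) (1 - u) - rz r o * ((1 - u) - 1)⁻¹) +
              HH (μ o) (l o) (l' o) (q o) u := by
            intro o
            obtain ⟨b1, b2, b3, b4, b5, b6⟩ := h3 o
            rw [← hDl, ← hDl]
            exact fe_ld (hdiff o) (hDd (rz r o)) (hq o) (hε o)
              (fun x hx => (hl o x hx).1.ne_zero) (fun x hx => (hl' o x hx).1.ne_zero) (hfe o)
              (h4 o) (h2 o) (pow_ne_zero _ h5) (pow_ne_zero _ h6) b1 b2 b3 b4 b5 b6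
          have h10 : ∑ o, (w o : ℂ) * (logDeriv (g o) u - rz r o * (u - 1)⁻¹) =
              ∑ o, (w o : ℂ) * (-(logDeriv (g o) (1 - u) -
                rz r o * ((1 - u) - 1)⁻¹) + HH (μ o) (l o) (l' o) (q o) u) :=
            Finset.sum_congr rfl fun o _ => by rw [h9 o]
          have h11 : ∑ o, (w o : ℂ) * (rz r o : ℂ) = 0 := wz_sum
          simp only [mul_sub, mul_add, mul_neg, Finset.sum_sub_distrib, Finset.sum_add_distrib,
            Finset.sum_neg_distrib, ← mul_assoc, ← Finset.sum_mul, h11, zero_mul, sub_zero] at h10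
          rw [hH]
          unfold A0
          exact h10
        rw [h8, h7, neg_neg]
    · -- the bound on the right
      intro s hs hs2
      rw [hDs s hs]
      have h1 := norm_Ds_le (a := ca β d) (ca_nonneg hβ0) (s := s) (has _ hs)
      have h2 := norm_Ds_le (a := cq β d) (cq_nonneg hd0) (s := s) (hqs _ hs)
      have h3 := hb1 (s.re - 1 / 2) (by linarith) (by linarith)
      have h4 := hb2 (s.re - 1 / 2) (by linarith) (by linarith)
      have e : 1 / 2 + (s.re - 1 / 2) = s.re := by ring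
      rw [e] at h3 h4
      have h5 : 0 < s.re - 1 / 2 := by linarith
      refine (norm_sub_le _ _).trans ?_
      have h6 : C1 / (s.re - 1 / 2) + C2 / (s.re - 1 / 2) ≤ C / (s.re - 1 / 2) := by
        rw [← add_div]
        exact div_le_div_of_nonneg_right (by linarith) h5.le
      linarith
    · intro s hs hs2 hs3
      refine (hC3b s hs hs2 (by linarith)).trans ?_
      have h4 : 0 < 1 / 2 - s.re := by linarith
      gcongr
      linarith
    · -- integrality
      intro z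
      obtain ⟨n, hn⟩ := mm_int (Z := Z) (R := R) z
      rw [hw, hg, hn]
      by_cases h1 : n = 0
      · left
        rw [h1, Int.cast_zero]
      · right
        rw [← Int.cast_abs]
        exact_mod_cast Int.one_le_abs h1
    · -- continuity
      have h1 : Continuous fun t : ℝ => ∑ o, (w o : ℂ) * HH (μ o) (l o) (l' o) (q o)
          (((1 / 2 - η : ℝ) : ℂ) + t * I) :=
        continuous_finsetSum _ fun o _ => continuous_const.mul (hHc o)
      exact h1
    · -- growth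
      refine ⟨((∑ i, m i : ℕ) : ℝ) - d, ∑ o, |w o| * Cg o, ?_, fun t => ?_⟩
      · have : d < ((∑ i, m i : ℕ) : ℝ) := by
          rw [hd]
          exact_mod_cast hm
        linarith
      · have e1 : ((((∑ i, m i : ℕ) : ℝ) - d) * Real.log (1 + |t|) : ℝ) =
            ∑ o, w o * ((μ o).length * Real.log (1 + |t|)) := by
          simp_rw [hμ]
          rw [Fintype.sum_option]
          simp only [hw, wz, mz, Option.elim]
          simp only [one_mul]
          rw [← Finset.sum_mul, hd]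
          push_cast
          ring
        have e2 : H (((1 / 2 - η : ℝ) : ℂ) + t * I) +
            ((((((∑ i, m i : ℕ) : ℝ) - d) * Real.log (1 + |t|) : ℝ)) : ℂ) =
            ∑ o, (w o : ℂ) * (HH (μ o) (l o) (l' o) (q o) (((1 / 2 - η : ℝ) : ℂ) + t * I) +
              (((μ o).length * Real.log (1 + |t|) : ℝ) : ℂ)) := by
          rw [e1, hH, ofReal_sum, ← Finset.sum_add_distrib]
          refine Finset.sum_congr rfl fun o _ => ?_
          push_cast
          ring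
        rw [e2]
        refine (norm_sum_le _ _).trans (Finset.sum_le_sum fun o _ => ?_)
        rw [norm_mul, Complex.norm_real, Real.norm_eq_abs]
        exact mul_le_mul_of_nonneg_left (hCg o t) (abs_nonneg _)
  exact hset.false hGG hWS

end Pool.Agent.N898.BU
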