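import Pool.Agent.N210.FV.Lan

/-!
# Landau's theorem with a second series on the other side
-/

set_option autoImplicit false

namespace Pool.Agent.N898.BU

open Filter Topology Complex Set
open Pool.Agent.N210.FV

section

variable {S : Finset ℕ} {J : Type*} [Fintype J] {w : J → ℝ} {g : J → ℂ → ℂ}

/-- the value of the real series -/
theorem Ds_real {a : PS S × ℕ → ℝ} (t : ℝ) : Ds (fun i => (a i : ℂ)) (oo S 1) t =
    ((∑' i, a i * Real.exp (-(t * oo S 1 i)) : ℝ) : ℂ) := by
  unfold Ds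
  rw [ofReal_tsum]
  refine tsum_congr fun i => ?_
  push_cast
  congr 2
  ring

theorem landau' (hg : ∀ i, Differentiable ℂ (g i)) (hne : ∀ i, ∃ s, g i s ≠ 0)
    {a : PS S × ℕ → ℝ} (ha0 : ∀ i, 0 ≤ a i) {Q : ℂ → ℂ}
    (hQ : DifferentiableOn ℂ Q {s | 1 / 2 < s.re})
    (hsum1 : ∀ t : ℝ, 1 < t → Summable fun i => a i * Real.exp (-(t * oo S 1 i)))
    (hA : ∀ s : ℂ, 1 < s.re → A0 w g s = Q s - Ds (fun i => (a i : ℂ)) (oo S 1) s)
    (hm : ∀ β : ℝ, 1 / 2 < β → β ≤ 1 → 0 ≤ mm w g β) :
    ∀ t : ℝ, 1 / 2 < t → Summable fun i => a i * Real.exp (-(t * oo S 1 i)) := by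
  classical
  have hom : ∀ i, 0 ≤ oo S 1 i := fun i => oo_nonneg 1 i
  set T : Set ℝ := {t : ℝ | 1 / 2 < t ∧ Summable fun i => a i * Real.exp (-(t * oo S 1 i))} with hT
  have hmono : ∀ t t' : ℝ, t ≤ t' → (Summable fun i => a i * Real.exp (-(t * oo S 1 i))) →
      Summable fun i => a i * Real.exp (-(t' * oo S 1 i)) := by
    intro t t' htt h
    exact Summable.of_nonneg_of_le (fun i => mul_nonneg (ha0 i) (Real.exp_pos _).le)
      (fun i => exp_mono (ha0 i) (hom i) htt) h
  have hTne : T.Nonempty := ⟨2, by norm_num, hsum1 2 (by norm_num)⟩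
  have hbdd : BddBelow T := ⟨1 / 2, fun t ht => ht.1.le⟩
  set β : ℝ := sInf T with hβ
  have hβlow : 1 / 2 ≤ β := le_csInf hTne fun t ht => ht.1.le
  have hgt : ∀ t : ℝ, β < t → Summable fun i => a i * Real.exp (-(t * oo S 1 i)) := by
    intro t ht
    obtain ⟨x, hx, hxt⟩ := exists_lt_of_csInf_lt hTne ht
    exact hmono x t hxt.le hx.2
  rcases hβlow.eq_or_lt with h0 | h0
  · intro t ht
    exact hgt t (by rw [← h0]; exact ht)
  exfalso
  have hβ1 : β ≤ 1 := by
    refine le_of_forall_pos_le_add fun ε hε => ?_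
    exact csInf_le hbdd ⟨by linarith, hsum1 _ (by linarith)⟩
  have hnorm : ∀ t : ℝ, β < t → Summable fun i => ‖(a i : ℂ)‖ * Real.exp (-(oo S 1 i * t)) := by
    intro t ht
    refine (hgt t ht).congr fun i => ?_
    rw [Complex.norm_real, Real.norm_of_nonneg (ha0 i), mul_comm t]
  have hopen : IsOpen {s : ℂ | 1 / 2 < s.re} := isOpen_lt continuous_const continuous_re
  have hB : DifferentiableOn ℂ (fun s => Q s - Ds (fun i => (a i : ℂ)) (oo S 1) s)
      {s | β < s.re} := by
    intro s hs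
    have hs : β < s.re := hs
    have h2 := Ds_hasDeriv (σ := (β + s.re) / 2) (hnorm _ (by linarith)) hom (s := s) (by linarith)
    have h3 : DifferentiableAt ℂ Q s :=
      hQ.differentiableAt (hopen.mem_nhds (show 1 / 2 < s.re by linarith))
    exact (h3.sub h2.differentiableAt).differentiableWithinAt
  have hcont := right_of hg hne (w := w) (σ₁ := 1) hB fun s hs _ => hA s hs
  have hpole := AA_pole (w := w) hg hne (β : ℂ)
  have hofr : Tendsto (fun t : ℝ => (t : ℂ)) (𝓝[>] β) (𝓝[≠] (β : ℂ)) := by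
    rw [tendsto_nhdsWithin_iff]
    constructor
    · exact (continuous_ofReal.tendsto β).mono_left nhdsWithin_le_nhds
    · filter_upwards [self_mem_nhdsWithin] with t ht
      have ht : β < t := ht
      intro h2
      have h3 : (t : ℂ) = β := h2
      have h4 : t = β := by exact_mod_cast h3
      linarith
  have hQan : AnalyticAt ℂ Q (β : ℂ) := hQ.analyticAt (hopen.mem_nhds (by
    show 1 / 2 < ((β : ℂ)).re
    rw [ofReal_re]
    exact h0))
  -- the residue is nonpositive
  have hsign : mm w g β ≤ 0 := by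
    have h2 : Tendsto (fun t : ℝ => ((t : ℂ) - β) * AA w g t) (𝓝[>] β) (𝓝 (mm w g β : ℂ)) := by
      have h3 := ((sub_tendsto (β : ℂ)).mul hpole).comp hofr
      rw [zero_mul] at h3
      have h4 := h3.add_const (mm w g β : ℂ)
      rw [zero_add] at h4
      refine h4.congr' ?_
      filter_upwards [self_mem_nhdsWithin] with t ht
      have ht : β < t := ht
      have h5 : (t : ℂ) - β ≠ 0 := by
        rw [← ofReal_sub]
        exact_mod_cast (by linarith : t - β ≠ 0)
      simp only [Function.comp_apply]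
      field_simp
      ring
    have h6 : Tendsto (fun t : ℝ => ((t : ℂ) - β) * Q t) (𝓝[>] β) (𝓝 0) := by
      have h3 := ((sub_tendsto (β : ℂ)).mul
        (hQan.continuousAt.tendsto.mono_left nhdsWithin_le_nhds)).comp hofr
      rw [zero_mul] at h3
      exact h3
    have h7 := h2.sub h6
    rw [sub_zero] at h7
    have h3 := (continuous_re.tendsto _).comp h7
    rw [ofReal_re] at h3
    refine le_of_tendsto h3 ?_
    filter_upwards [self_mem_nhdsWithin] with t ht
    have ht : β < t := ht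
    simp only [Function.comp_apply]
    rw [(hcont (t : ℂ) (by rw [ofReal_re]; exact ht)).2, Ds_real, ← mul_sub, sub_sub_cancel_left,
      ← ofReal_sub, ← ofReal_neg, ← ofReal_mul, ofReal_re]
    have h4 : 0 ≤ ∑' i, a i * Real.exp (-(t * oo S 1 i)) :=
      tsum_nonneg fun i => mul_nonneg (ha0 i) (Real.exp_pos _).le
    nlinarith
  have hzero : mm w g β = 0 := le_antisymm hsign (hm β h0 hβ1)
  obtain ⟨φ, hφ1, hφ2, hφ3⟩ := AA_loc (w := w) hg hne (β : ℂ)
  obtain ⟨t, ht, hts⟩ := Pool.Agent.W189.TP.landau_sum ha0 hom (re_analytic (hφ1.sub hQan)) hgt (by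
    filter_upwards [hofr.eventually hφ3, self_mem_nhdsWithin] with t h2 h3
    have h3 : β < t := h3
    have h4 := (hcont (t : ℂ) (by rw [ofReal_re]; exact h3)).2
    rw [h2, hzero, Ds_real] at h4
    have h5 : φ t - Q t = -((∑' i, a i * Real.exp (-(t * oo S 1 i)) : ℝ) : ℂ) := by
      rw [ofReal_zero, zero_mul, zero_add] at h4
      rw [h4]
      ring
    simp only [Pi.sub_apply]
    rw [h5, neg_neg, ofReal_re])
  have h2 := hmono t (max t ((1 / 2 + β) / 2)) (le_max_left _ _) hts
  have h3 : max t ((1 / 2 + β) / 2) ∈ T := ⟨lt_of_lt_of_le (by linarith) (le_max_right _ _), h2⟩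
  have h4 := csInf_le hbdd h3
  have h5 : max t ((1 / 2 + β) / 2) < β := max_lt ht (by linarith)
  linarith

end

end Pool.Agent.N898.BU
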