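import Pool.Agent.N210.FV.Main
import Pool.Agent.N898.BU.Lan

/-!
# The residues on the line `Re s = 1/2` form a positive definite function; windows
-/

set_option autoImplicit false

namespace Pool.Agent.N898.BU

open Filter Topology Complex Set
open Pool.Agent.N210.FV
open scoped ComplexConjugate

variable {S : Finset ℕ} {J : Type*} [Fintype J] {w : J → ℝ} {g : J → ℂ → ℂ}
  {a q : PS S × ℕ → ℝ} {d : ℝ}

/-- the data on the right of the line -/
structure PD (w : J → ℝ) (g : J → ℂ → ℂ) (a q : PS S × ℕ → ℝ) (d : ℝ) : Prop where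
  ent : ∀ i, Ent (g i)
  a0 : ∀ i, 0 ≤ a i
  sa : ∀ t : ℝ, 1 / 2 < t → Summable fun i => a i * Real.exp (-(t * oo S 1 i))
  right : ∀ s : ℂ, 1 / 2 < s.re → mm w g s = 0 ∧ AA w g s =
    Ds (fun i => (q i : ℂ)) (oo S 1) s - Ds (fun i => (a i : ℂ)) (oo S 1) s
  ql : ∀ τ : ℝ, Tendsto (fun δ : ℝ => (δ : ℂ) * Ds (fun i => (q i : ℂ)) (oo S 1)
    (1 / 2 + δ + τ * I)) (𝓝[>] 0) (𝓝 (if τ = 0 then ((d / 2 : ℝ) : ℂ) else 0))

/-- the residues of the positive series -/
noncomputable def rr (w : J → ℝ) (g : J → ℂ → ℂ) (d : ℝ) (τ : ℝ) : ℝ :=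
  -mm w g (1 / 2 + τ * I) + if τ = 0 then d / 2 else 0

theorem PD.lim (h : PD w g a q d) (τ : ℝ) :
    Tendsto (fun δ : ℝ => (δ : ℂ) * Ds (fun i => (a i : ℂ)) (oo S 1) (1 / 2 + δ + τ * I))
      (𝓝[>] 0) (𝓝 (rr w g d τ : ℂ)) := by
  set z : ℂ := 1 / 2 + τ * I with hz
  have hzre : z.re = 1 / 2 := by simp [hz]
  have h0 : Tendsto (fun δ : ℝ => (δ : ℂ)) (𝓝[>] 0) (𝓝 0) := by
    have := (continuous_ofReal.tendsto (0 : ℝ))
    rw [ofReal_zero] at this
    exact this.mono_left nhdsWithin_le_nhds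
  have h1 : Tendsto (fun δ : ℝ => z + (δ : ℂ)) (𝓝[>] 0) (𝓝[≠] z) := by
    rw [tendsto_nhdsWithin_iff]
    constructor
    · simpa using h0.const_add z
    · filter_upwards [self_mem_nhdsWithin] with δ hδ
      have hδ : (0 : ℝ) < δ := hδ
      simp [hδ.ne']
  have h2 := (AA_pole (w := w) (fun i => (h.ent i).diff) (fun i => (h.ent i).ne) z).comp h1
  have h3 := h0.mul h2
  rw [zero_mul] at h3
  have h4 := ((h.ql τ).sub h3).sub (tendsto_const_nhds (x := (mm w g z : ℂ)))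
  have e : (if τ = 0 then ((d / 2 : ℝ) : ℂ) else 0) - 0 - (mm w g z : ℂ) = (rr w g d τ : ℂ) := by
    unfold rr
    rw [← hz]
    split_ifs <;> push_cast <;> ring
  rw [e] at h4
  refine h4.congr' ?_
  filter_upwards [self_mem_nhdsWithin] with δ hδ
  have hδ : (0 : ℝ) < δ := hδ
  have e1 : (1 / 2 + (δ : ℂ) + τ * I) = z + δ := by rw [hz]; ring
  have e2 : 1 / 2 < (z + (δ : ℂ)).re := by
    rw [add_re, hzre, ofReal_re]
    linarith
  simp only [Function.comp_apply]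
  rw [e1, (h.right _ e2).2, add_sub_cancel_left]
  have hδ0 : (δ : ℂ) ≠ 0 := by exact_mod_cast hδ.ne'
  field_simp
  ring

theorem Ds_conj (a : PS S × ℕ → ℝ) (s : ℂ) : Ds (fun i => (a i : ℂ)) (oo S 1) (conj s) =
    conj (Ds (fun i => (a i : ℂ)) (oo S 1) s) := by
  unfold Ds
  rw [conj_tsum]
  refine tsum_congr fun i => ?_
  rw [map_mul, conj_ofReal, ← exp_conj, map_mul, map_neg, conj_ofReal]

theorem PD.even (h : PD w g a q d) (τ : ℝ) : rr w g d (-τ) = rr w g d τ := by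
  have h1 := h.lim (-τ)
  have h2 := (continuous_conj.tendsto _).comp (h.lim τ)
  have h3 : (rr w g d (-τ) : ℂ) = conj (rr w g d τ : ℂ) := by
    refine tendsto_nhds_unique h1 (h2.congr fun δ => ?_)
    simp only [Function.comp_apply]
    rw [map_mul, conj_ofReal, ← Ds_conj]
    congr 2
    simp only [map_add, map_mul, map_div₀, map_one, conj_ofReal, conj_I, map_ofNat]
    push_cast
    ring
  rw [conj_ofReal] at h3
  exact_mod_cast h3

theorem PD.summC (h : PD w g a q d) {s : ℂ} (hs : 1 / 2 < s.re) :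
    Summable fun i => (a i : ℂ) * exp (-(oo S 1 i : ℂ) * s) := by
  refine Summable.of_norm ((h.sa s.re hs).congr fun i => ?_)
  rw [norm_mul, Complex.norm_real, Real.norm_of_nonneg (h.a0 i), Complex.norm_exp, neg_mul, neg_re,
    re_ofReal_mul, mul_comm (oo S 1 i)]

/-- positive definiteness -/
theorem PD.pos (h : PD w g a q d) (T : Finset ℝ) (c : ℝ → ℝ) :
    0 ≤ ∑ x ∈ T, ∑ y ∈ T, c x * c y * rr w g d (x - y) := by
  have h1 : Tendsto (fun δ : ℝ => ∑ x ∈ T, ∑ y ∈ T, ((c x * c y : ℝ) : ℂ) *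
      ((δ : ℂ) * Ds (fun i => (a i : ℂ)) (oo S 1) (1 / 2 + δ + ((x - y : ℝ) : ℂ) * I))) (𝓝[>] 0)
      (𝓝 (∑ x ∈ T, ∑ y ∈ T, ((c x * c y : ℝ) : ℂ) * (rr w g d (x - y) : ℂ))) :=
    tendsto_finsetSum _ fun x _ => tendsto_finsetSum _ fun y _ => (h.lim (x - y)).const_mul _
  have h2 := (continuous_re.tendsto _).comp h1
  have e : (∑ x ∈ T, ∑ y ∈ T, ((c x * c y : ℝ) : ℂ) * (rr w g d (x - y) : ℂ)).re =
      ∑ x ∈ T, ∑ y ∈ T, c x * c y * rr w g d (x - y) := by
    rw [← ofReal_re (∑ x ∈ T, ∑ y ∈ T, c x * c y * rr w g d (x - y))]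
    congr 1
    push_cast
    rfl
  rw [e] at h2
  refine ge_of_tendsto h2 ?_
  filter_upwards [self_mem_nhdsWithin] with δ hδ
  have hδ : (0 : ℝ) < δ := hδ
  simp only [Function.comp_apply]
  have hre : ∀ u : ℝ, 1 / 2 < (1 / 2 + (δ : ℂ) + (u : ℂ) * I).re := by
    intro u
    simp
    linarith
  have hsq : ∀ i : PS S × ℕ, ∑ x ∈ T, ∑ y ∈ T, ((c x * c y : ℝ) : ℂ) *
      ((a i : ℂ) * exp (-(oo S 1 i : ℂ) * (1 / 2 + δ + ((x - y : ℝ) : ℂ) * I))) =
      ((a i * Real.exp (-(oo S 1 i * (1 / 2 + δ))) *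
        ‖∑ x ∈ T, (c x : ℂ) * exp (-((oo S 1 i * x : ℝ) : ℂ) * I)‖ ^ 2 : ℝ) : ℂ) := by
    intro i
    rw [ofReal_mul, ofReal_pow, ← Complex.mul_conj', map_sum, Finset.sum_mul_sum, Finset.mul_sum]
    refine Finset.sum_congr rfl fun x _ => ?_
    rw [Finset.mul_sum]
    refine Finset.sum_congr rfl fun y _ => ?_
    rw [map_mul, conj_ofReal, ← exp_conj]
    have e1 : exp (-(oo S 1 i : ℂ) * (1 / 2 + δ + ((x - y : ℝ) : ℂ) * I)) =
        ((Real.exp (-(oo S 1 i * (1 / 2 + δ))) : ℝ) : ℂ) *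
          (exp (-((oo S 1 i * x : ℝ) : ℂ) * I) * exp (conj (-((oo S 1 i * y : ℝ) : ℂ) * I))) := by
      rw [ofReal_exp, ← exp_add, ← exp_add]
      congr 1
      simp only [map_mul, map_neg, conj_ofReal, conj_I]
      push_cast
      ring
    rw [e1]
    push_cast
    ring
  have hsum : ∑ x ∈ T, ∑ y ∈ T, ((c x * c y : ℝ) : ℂ) *
      ((δ : ℂ) * Ds (fun i => (a i : ℂ)) (oo S 1) (1 / 2 + δ + ((x - y : ℝ) : ℂ) * I)) =
      (δ : ℂ) * ((∑' i, (a i * Real.exp (-(oo S 1 i * (1 / 2 + δ))) *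
        ‖∑ x ∈ T, (c x : ℂ) * exp (-((oo S 1 i * x : ℝ) : ℂ) * I)‖ ^ 2) : ℝ) : ℂ) := by
    rw [ofReal_tsum]
    simp_rw [← hsq]
    rw [Summable.tsum_finsetSum (fun x _ => summable_sum fun y _ => (h.summC (hre _)).mul_left _),
      Finset.mul_sum]
    refine Finset.sum_congr rfl fun x _ => ?_
    rw [Summable.tsum_finsetSum (fun y _ => (h.summC (hre _)).mul_left _), Finset.mul_sum]
    refine Finset.sum_congr rfl fun y _ => ?_
    rw [tsum_mul_left]
    unfold Ds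
    ring
  rw [hsum, ← ofReal_mul, ofReal_re]
  refine mul_nonneg hδ.le (tsum_nonneg fun i => ?_)
  have := h.a0 i
  positivity

theorem rr_ne {τ : ℝ} (hτ : τ ≠ 0) : rr w g d τ = -mm w g (1 / 2 + τ * I) := by
  unfold rr
  rw [if_neg hτ, add_zero]

/-- the windows -/
theorem PD.window (h : PD w g a q d) : ∃ B : ℝ, ∀ F : Finset ℂ, (∀ z ∈ F, z.re = 1 / 2) →
    (∀ z ∈ F, ∀ z' ∈ F, |z.im - z'.im| ≤ 1) → ∑ z ∈ F, (mm w g z) ^ 2 ≤ B := by
  classical
  obtain ⟨Cz, hCz0, hCz⟩ := zeros_finset h.ent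
  obtain ⟨W, -, hW⟩ := hCz 2 (by norm_num)
  set K : ℝ := |rr w g d 0| + ∑ z ∈ W, |mm w g z| with hK
  have hK0 : 0 ≤ K := by positivity
  have hR0 : 0 ≤ rr w g d 0 := by
    have := h.pos {0} (fun _ => 1)
    simpa using this
  have hz : ∀ z : ℂ, z.re = 1 / 2 → (1 / 2 + (z.im : ℂ) * I) = z := by
    intro z h1
    apply Complex.ext <;> simp [h1]
  -- row sums
  have hrow : ∀ (F : Finset ℂ), (∀ z ∈ F, z.re = 1 / 2) → (∀ z ∈ F, ∀ z' ∈ F, |z.im - z'.im| ≤ 1) →
      ∀ x ∈ F, ∑ y ∈ F, |rr w g d (x.im - y.im)| ≤ K := by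
    intro F hF1 hF2 x hx
    rw [← Finset.add_sum_erase F _ hx, sub_self, hK]
    refine add_le_add le_rfl ?_
    set f : ℂ → ℂ := fun y => 1 / 2 + ((x.im - y.im : ℝ) : ℂ) * I with hf
    have hfi : ∀ y ∈ F, ∀ y' ∈ F, f y = f y' → y = y' := by
      intro y hy y' hy' he
      have h1 := congrArg Complex.im he
      simp [hf] at h1
      apply Complex.ext
      · rw [hF1 y hy, hF1 y' hy']
      · exact h1
    have h1 : ∀ y ∈ F.erase x, |rr w g d (x.im - y.im)| = |mm w g (f y)| := by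
      intro y hy
      have hne : x.im - y.im ≠ 0 := by
        intro h2
        apply (Finset.mem_erase.1 hy).1
        apply Complex.ext
        · rw [hF1 y (Finset.mem_of_mem_erase hy), hF1 x hx]
        · linarith
      rw [rr_ne hne, abs_neg]
    rw [Finset.sum_congr rfl h1]
    have h2 : ∑ y ∈ F.erase x, |mm w g (f y)| =
        ∑ y ∈ (F.erase x).filter (fun y => mm w g (f y) ≠ 0), |mm w g (f y)| := by
      symm
      refine Finset.sum_filter_of_ne fun y _ hy => ?_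
      intro h3
      exact hy (by rw [h3, abs_zero])
    rw [h2, ← Finset.sum_image (f := fun z => |mm w g z|) (g := f) (s := (F.erase x).filter
      (fun y => mm w g (f y) ≠ 0))]
    · refine Finset.sum_le_sum_of_subset_of_nonneg ?_ fun z _ _ => abs_nonneg _
      intro z hz2
      obtain ⟨y, hy, rfl⟩ := Finset.mem_image.1 hz2
      rw [Finset.mem_filter] at hy
      rw [hW]
      refine ⟨mm_of_ne h.ent hy.2, ?_⟩
      have h3 := hF2 x hx y (Finset.mem_of_mem_erase hy.1)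
      have h4 := Complex.norm_le_abs_re_add_abs_im (f y)
      have h5 : (f y).re = 1 / 2 := by simp [hf]
      have h6 : (f y).im = x.im - y.im := by simp [hf]
      rw [h5, h6, abs_of_nonneg (by norm_num : (0 : ℝ) ≤ 1 / 2)] at h4
      linarith
    · intro y hy y' hy' he
      exact hfi y (Finset.mem_of_mem_erase (Finset.mem_filter.1 hy).1) y'
        (Finset.mem_of_mem_erase (Finset.mem_filter.1 hy').1) he
  refine ⟨(K + 1) * rr w g d 0 + (mm w g (1 / 2)) ^ 2, fun F hF1 hF2 => ?_⟩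
  set Z : Finset ℂ := F.filter fun z => z.im ≠ 0 with hZ
  have hZ1 : ∀ z ∈ Z, z.re = 1 / 2 := fun z hz2 => hF1 z (Finset.mem_filter.1 hz2).1
  have hZ2 : ∀ z ∈ Z, ∀ z' ∈ Z, |z.im - z'.im| ≤ 1 := fun z hz2 z' hz3 =>
    hF2 z (Finset.mem_filter.1 hz2).1 z' (Finset.mem_filter.1 hz3).1
  have hZ3 : ∀ z ∈ Z, z.im ≠ 0 := fun z hz2 => (Finset.mem_filter.1 hz2).2
  set s : ℝ := ∑ z ∈ Z, (mm w g z) ^ 2 with hs
  -- the central point
  have hsplit : ∑ z ∈ F, (mm w g z) ^ 2 ≤ s + (mm w g (1 / 2)) ^ 2 := by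
    rw [← Finset.sum_filter_add_sum_filter_not F (fun z => z.im ≠ 0)]
    refine add_le_add le_rfl ?_
    have h1 : F.filter (fun z => ¬ z.im ≠ 0) ⊆ {(1 / 2 : ℂ)} := by
      intro z hz2
      rw [Finset.mem_filter, not_not] at hz2
      rw [Finset.mem_singleton]
      apply Complex.ext
      · rw [hF1 z hz2.1]
        simp
      · rw [hz2.2]
        simp
    refine (Finset.sum_le_sum_of_subset_of_nonneg h1 fun z _ _ => sq_nonneg _).trans ?_
    rw [Finset.sum_singleton]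
  -- the quadratic form
  have him : Set.InjOn Complex.im (Z : Set ℂ) := by
    intro x hx y hy he
    apply Complex.ext
    · rw [hZ1 x hx, hZ1 y hy]
    · exact he
  set c : ℝ → ℝ := fun t => if t = 0 then K + 1 else mm w g (1 / 2 + t * I) with hc
  have hc0 : c 0 = K + 1 := by simp [hc]
  have hcz : ∀ z ∈ Z, c z.im = mm w g z := by
    intro z hz2
    simp only [hc]
    rw [if_neg (hZ3 z hz2), hz z (hZ1 z hz2)]
  have h0 : (0 : ℝ) ∉ Z.image Complex.im := by
    intro h1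
    obtain ⟨z, hz2, hz3⟩ := Finset.mem_image.1 h1
    exact hZ3 z hz2 hz3
  have hpos := h.pos (insert 0 (Z.image Complex.im)) c
  rw [Finset.sum_insert h0, Finset.sum_insert h0, hc0, sub_self,
    Finset.sum_image him] at hpos
  have e1 : ∑ x ∈ Z, (K + 1) * c x.im * rr w g d (0 - x.im) = -(K + 1) * s := by
    rw [hs, Finset.mul_sum]
    refine Finset.sum_congr rfl fun z hz2 => ?_
    rw [hcz z hz2, zero_sub, h.even, rr_ne (hZ3 z hz2), hz z (hZ1 z hz2)]
    ring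
  have e2 : ∑ x ∈ Z.image Complex.im, ∑ y ∈ insert 0 (Z.image Complex.im),
      c x * c y * rr w g d (x - y) ≤ -(K + 1) * s + K * s := by
    rw [Finset.sum_image him]
    have e3 : ∀ x ∈ Z, ∑ y ∈ insert 0 (Z.image Complex.im), c x.im * c y * rr w g d (x.im - y) =
        -(K + 1) * (mm w g x) ^ 2 + ∑ y ∈ Z, mm w g x * mm w g y * rr w g d (x.im - y.im) := by
      intro x hx
      rw [Finset.sum_insert h0, Finset.sum_image him, hc0, hcz x hx, sub_zero,
        rr_ne (hZ3 x hx), hz x (hZ1 x hx)]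
      congr 1
      · ring
      · exact Finset.sum_congr rfl fun y hy => by rw [hcz y hy]
    rw [Finset.sum_congr rfl e3, Finset.sum_add_distrib, ← Finset.mul_sum]
    refine add_le_add le_rfl ?_
    have e4 : ∑ x ∈ Z, ∑ y ∈ Z, mm w g x * mm w g y * rr w g d (x.im - y.im) ≤
        ∑ x ∈ Z, ∑ y ∈ Z, ((mm w g x) ^ 2 / 2 * |rr w g d (x.im - y.im)| +
          (mm w g y) ^ 2 / 2 * |rr w g d (x.im - y.im)|) := by
      refine Finset.sum_le_sum fun x _ => Finset.sum_le_sum fun y _ => ?_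
      have h1 := abs_nonneg (rr w g d (x.im - y.im))
      have h2 : mm w g x * mm w g y * rr w g d (x.im - y.im) ≤
          |mm w g x * mm w g y| * |rr w g d (x.im - y.im)| := by
        rw [← abs_mul]
        exact le_abs_self _
      have h3 : |mm w g x * mm w g y| ≤ (mm w g x) ^ 2 / 2 + (mm w g y) ^ 2 / 2 := by
        rw [abs_mul]
        nlinarith [sq_nonneg (|mm w g x| - |mm w g y|), sq_abs (mm w g x), sq_abs (mm w g y)]
      nlinarith
    refine e4.trans ?_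
    simp_rw [Finset.sum_add_distrib]
    have e5 : ∑ x ∈ Z, ∑ y ∈ Z, (mm w g x) ^ 2 / 2 * |rr w g d (x.im - y.im)| ≤ s / 2 * K := by
      rw [hs, Finset.sum_div, Finset.sum_mul]
      refine Finset.sum_le_sum fun x hx => ?_
      rw [← Finset.mul_sum]
      exact mul_le_mul_of_nonneg_left (hrow Z hZ1 hZ2 x hx) (by positivity)
    have e6 : ∑ x ∈ Z, ∑ y ∈ Z, (mm w g y) ^ 2 / 2 * |rr w g d (x.im - y.im)| ≤ s / 2 * K := by
      rw [Finset.sum_comm, hs, Finset.sum_div, Finset.sum_mul]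
      refine Finset.sum_le_sum fun x hx => ?_
      rw [← Finset.mul_sum]
      refine mul_le_mul_of_nonneg_left ?_ (by positivity)
      refine le_of_eq_of_le ?_ (hrow Z hZ1 hZ2 x hx)
      refine Finset.sum_congr rfl fun y _ => ?_
      rw [← h.even (x.im - y.im), neg_sub]
    linarith
  rw [e1] at hpos
  have hfin : s ≤ (K + 1) * rr w g d 0 := by
    have h1 : 0 ≤ (K + 1) * (K + 1) * rr w g d 0 + -(K + 1) * s + (-(K + 1) * s + K * s) := by
      linarith
    have h2 : 0 < K + 1 := by linarith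
    have h3 : (K + 1) * s + s ≤ (K + 1) * ((K + 1) * rr w g d 0) := by nlinarith
    have hs0 : 0 ≤ s := Finset.sum_nonneg fun z _ => sq_nonneg _
    have h4 : (K + 1) * s ≤ (K + 1) * ((K + 1) * rr w g d 0) := by linarith
    exact le_of_mul_le_mul_left h4 h2
  linarith

end Pool.Agent.N898.BU
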