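import Pool.Agent.N95.BU.EU

/-!
# From the Euler product to the Dirichlet series, a pole of order `r` (after helper95)
-/

set_option autoImplicit false

namespace Pool.Agent.N898.BU

open Filter Topology Complex
open Pool.Agent.N210.FV
open Pool.Agent.N95.BU
open scoped ComplexConjugate

/-- **From the Euler product of a Rankin-Selberg L-function to the Dirichlet series.** -/
theorem eu_r {S : Finset ℕ} {n : ℕ} {α : ℕ → ℕ → ℂ} {R : ℂ → ℂ} (r : ℕ) (hR : Differentiable ℂ R)
    (hα : ∀ p : ℕ, p.Prime → p ∉ S → ∀ i < n, ‖α p i‖ ^ 2 < p)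
    (hE : ∀ s : ℂ, 1 < s.re → Tendsto (fun X : ℕ =>
      ∏ p ∈ (Finset.range X).filter (fun p => p.Prime ∧ p ∉ S),
        ∏ i ∈ Finset.range n, ∏ j ∈ Finset.range n,
          (1 - α p i * conj (α p j) * (p : ℂ) ^ (-s))⁻¹) atTop (𝓝 (R s / (s - 1) ^ r))) :
    (∀ x : ℝ, 1 < x → Summable fun i : PS S × ℕ =>
      ‖∑ j ∈ Finset.range n, α i.1 j ^ (i.2 + 1)‖ ^ 2 * Real.log (i.1 : ℕ) *
        Real.exp (-(x * oo S 1 i))) ∧
    ∀ s : ℂ, 1 < s.re → logDeriv R s - r * (s - 1)⁻¹ =
      -Ds (fun i : PS S × ℕ => ((‖∑ j ∈ Finset.range n, α i.1 j ^ (i.2 + 1)‖ ^ 2 *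
        Real.log (i.1 : ℕ) : ℝ) : ℂ)) (oo S 1) s := by
  have h : ∀ p : PS S, ∀ i < n, ‖α p i‖ ^ 2 < (p : ℕ) := fun p => hα p p.2.1 p.2.2
  have hco : ∀ i : PS S × ℕ, ‖∑ j ∈ Finset.range n, α i.1 j ^ (i.2 + 1)‖ ^ 2 *
      Real.log (i.1 : ℕ) = rb S n α i * oo S 1 i := by
    intro i
    unfold rb oo
    have h1 : (i.2 : ℝ) + 1 ≠ 0 := by positivity
    field_simp
    push_cast
    ring
  have hE' : ∀ s : ℂ, 1 < s.re → Tendsto (fun X : ℕ =>
      ∏ p ∈ (Finset.range X).filter (fun p => p.Prime ∧ p ∉ S),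
        ∏ i ∈ Finset.range n, ∏ j ∈ Finset.range n,
          (1 - α p i * conj (α p j) * (p : ℂ) ^ (-s))⁻¹) atTop
        (𝓝 ((fun s => (s - 1) * (R s / (s - 1) ^ r)) s / (s - 1))) := by
    intro s hs
    have h1 : s - 1 ≠ 0 := by
      intro h2
      have h3 : s = 1 := by linear_combination h2
      rw [h3, one_re] at hs
      exact lt_irrefl _ hs
    simp only
    rw [mul_div_cancel_left₀ _ h1]
    exact hE s hs
  have hsum := fun {x : ℝ} (hx : 1 < x) => summ_all (R := fun s => (s - 1) * (R s / (s - 1) ^ r))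
    h hE' hx
  refine ⟨fun x hx => ?_, fun s hs => ?_⟩
  · have hx' : 1 < (1 + x) / 2 := by linarith
    refine Summable.of_nonneg_of_le (fun i => ?_) (fun i => ?_)
      ((hsum hx').mul_left (2 / (x - 1)))
    · have := i.1.log_pos
      positivity
    · rw [hco i]
      have h0 := oo_nonneg 1 i
      have h1 : oo S 1 i * ((x - 1) / 2) ≤ Real.exp (oo S 1 i * ((x - 1) / 2)) := by
        have := Real.add_one_le_exp (oo S 1 i * ((x - 1) / 2))
        linarith
      have h2 : oo S 1 i ≤ 2 / (x - 1) * Real.exp (oo S 1 i * ((x - 1) / 2)) := by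
        have h3 : 0 < x - 1 := by linarith
        rw [div_mul_eq_mul_div, le_div_iff₀ h3]
        linarith
      calc rb S n α i * oo S 1 i * Real.exp (-(x * oo S 1 i)) ≤
          rb S n α i * (2 / (x - 1) * Real.exp (oo S 1 i * ((x - 1) / 2))) *
            Real.exp (-(x * oo S 1 i)) := by
            have := rb_nonneg (n := n) (α := α) i
            gcongr
        _ = 2 / (x - 1) * (rb S n α i * (Real.exp (oo S 1 i * ((x - 1) / 2)) *
            Real.exp (-(x * oo S 1 i)))) := by ring
        _ = 2 / (x - 1) * (rb S n α i * Real.exp (-(oo S 1 i * ((1 + x) / 2)))) := by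
            rw [← Real.exp_add]
            congr 4
            ring
  · -- the Euler product converges to the exponential of the series
    have hnorm : ∀ {σ : ℝ}, 1 < σ → Summable fun i : PS S × ℕ =>
        ‖bt S (ps (ix n) (be α)) i‖ * Real.exp (-(oo S 1 i * σ)) := by
      intro σ hσ
      refine (hsum hσ).congr fun i => ?_
      rw [bt_eq, Complex.norm_real, Real.norm_of_nonneg (rb_nonneg _)]
    have hexp : ∀ {s : ℂ}, 1 < s.re →
        R s = (s - 1) ^ r * exp (Ds (bt S (ps (ix n) (be α))) (oo S 1) s) := by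
      intro s hs
      have h1 : Summable fun i : PS S × ℕ =>
          bt S (ps (ix n) (be α)) i * exp (-(oo S 1 i : ℂ) * s) := by
        refine Summable.of_norm ((hnorm hs).congr fun i => ?_)
        rw [norm_mul, Complex.norm_exp, neg_mul, neg_re, re_ofReal_mul]
      have h2 := h1.hasSum.prod_fiberwise (fun p => (h1.prod_factor p).hasSum)
      set g : ℕ → ℂ := fun p => if hp : p.Prime ∧ p ∉ S then
        ∑' k : ℕ, bt S (ps (ix n) (be α)) (⟨p, hp⟩, k) * exp (-(oo S 1 (⟨p, hp⟩, k) : ℂ) * s)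
          else 0 with hg
      have h3 : HasSum g (Ds (bt S (ps (ix n) (be α))) (oo S 1) s) := by
        rw [← Function.Injective.hasSum_iff (g := fun p : PS S => (p : ℕ))
          Subtype.val_injective]
        · have e : (g ∘ fun p : PS S => (p : ℕ)) = fun p : PS S =>
              ∑' k : ℕ, bt S (ps (ix n) (be α)) (p, k) * exp (-(oo S 1 (p, k) : ℂ) * s) := by
            funext p
            simp only [Function.comp_apply, hg]
            rw [dif_pos p.2]
          rw [e]
          exact h2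
        · intro x hx
          simp only [hg]
          rw [dif_neg]
          intro hp
          exact hx ⟨⟨x, hp⟩, rfl⟩
      have h4 := (continuous_exp.tendsto _).comp h3.tendsto_sum_nat
      have h5 : Tendsto (fun X : ℕ =>
          ∏ p ∈ (Finset.range X).filter (fun p => p.Prime ∧ p ∉ S),
            ∏ i ∈ Finset.range n, ∏ j ∈ Finset.range n,
              (1 - α p i * conj (α p j) * (p : ℂ) ^ (-s))⁻¹) atTop
          (𝓝 (exp (Ds (bt S (ps (ix n) (be α))) (oo S 1) s))) := by
        refine h4.congr fun X => ?_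
        exact part_prod h hs X
      have h6 := tendsto_nhds_unique (hE s hs) h5
      have h7 : s - 1 ≠ 0 := by
        intro h0
        rw [sub_eq_zero.1 h0] at hs
        simp at hs
      rw [← h6, mul_div_cancel₀ _ (pow_ne_zero _ h7)]
    have h7 : ∀ {s : ℂ}, 1 < s.re → s - 1 ≠ 0 := by
      intro s hs h0
      rw [sub_eq_zero.1 h0] at hs
      simp at hs
    have hd : HasDerivAt (Ds (bt S (ps (ix n) (be α))) (oo S 1)) _ s :=
      Ds_hasDeriv (σ := (1 + s.re) / 2) (hnorm (by linarith)) (fun i => oo_nonneg 1 i)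
        (by linarith)
    have h1 : R =ᶠ[𝓝 s] fun s => (s - 1) ^ r * exp (Ds (bt S (ps (ix n) (be α))) (oo S 1) s) := by
      filter_upwards [(isOpen_lt continuous_const continuous_re).mem_nhds hs] with u hu
      exact hexp hu
    have hd1 : HasDerivAt (fun s : ℂ => s - 1) 1 s := (hasDerivAt_id s).sub_const 1
    rw [(logDeriv_congr_nhds h1).eq_of_nhds, logDeriv_mul (f := fun s : ℂ => (s - 1) ^ r)
      (g := fun s => exp (Ds (bt S (ps (ix n) (be α))) (oo S 1) s)) s (pow_ne_zero _ (h7 hs))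
      (exp_ne_zero _) (hd1.differentiableAt.pow r) hd.cexp.differentiableAt]
    have h2 : logDeriv (fun s => exp (Ds (bt S (ps (ix n) (be α))) (oo S 1) s)) s =
        -Ds (fun i : PS S × ℕ => ((‖∑ j ∈ Finset.range n, α i.1 j ^ (i.2 + 1)‖ ^ 2 *
          Real.log (i.1 : ℕ) : ℝ) : ℂ)) (oo S 1) s := by
      rw [logDeriv_apply, hd.cexp.deriv, mul_div_cancel_left₀ _ (exp_ne_zero _)]
      congr 2
      funext i
      rw [bt_eq, hco i, ofReal_mul]
    have h3 : logDeriv (fun s : ℂ => (s - 1) ^ r) s = r * (s - 1)⁻¹ := by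
      rw [logDeriv_fun_pow hd1.differentiableAt, logDeriv_apply, hd1.deriv, one_div]
    rw [h2, h3]
    ring

end Pool.Agent.N898.BU
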