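import Pool.Agent.N898.BU.Core

/-!
# The contradiction
-/

set_option autoImplicit false

namespace Pool.Agent.N898.BU

open Filter Topology Complex MeasureTheory Set Pool.Agent.H491R3 Pool.Agent.H640R3.EG
open Pool.Agent.H810R2.CSd Pool.Agent.N210.FV

variable {J ι : Type*} [Fintype J] {w : J → ℝ} {g : J → ℂ → ℂ} {a : ι → ℂ} {om : ι → ℝ}
  {η : ℝ} {H : ℂ → ℂ} {C B : ℝ}

theorem right_null {σ x : ℝ} (h0 : ∀ i, 0 < om i)
    (hs : Summable fun i => ‖a i‖ * Real.exp (-(om i * σ))) :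
    Null 0 x fun t : ℝ => Ds a om (σ + t * I) := by
  simp only [Ds_right]
  refine null_exs (summ_b hs) fun i _ => ?_
  have := h0 i
  rw [zero_add]
  exact neg_ne_zero.2 this.ne'

theorem left_null' {σ x : ℝ} (h0 : ∀ i, 0 < om i)
    (hs : Summable fun i => ‖a i‖ * Real.exp (-(om i * σ))) :
    Null 0 x fun t : ℝ => Ds a om (σ - t * I) := by
  simp only [Ds_left]
  refine null_exs (summ_b hs) fun i _ => ?_
  have := h0 i
  rw [zero_add]
  exact this.ne'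

theorem Su.false (hGG : S_GG) (hWS : S_WS) (h : Su w g a om η H C B) : False := by
  have hη := h.eta
  have hη4 := h.eta4
  have hC := h.c0
  obtain ⟨D, C', hD, hgr⟩ := h.gr
  obtain ⟨CW, hCW0, hCW⟩ := hWS h.int h.win
  obtain ⟨c, hc, hc1, hheight⟩ := height h.ent
  obtain ⟨Cz, hCz0, hCz⟩ := zeros_finset h.ent
  set K₂ : ℝ := 32 * C / (η * c) * Real.exp (η ^ 2) with hK₂
  have hlim : Tendsto (fun T : ℝ =>
      2 * (K₂ * (T ^ (9 / 4 : ℝ) * Real.exp (-(T ^ (1 / 4 : ℝ)))))) atTop (𝓝 0) := by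
    simpa using (pow_exp_small.const_mul K₂).const_mul 2
  have hr := (right_null (x := η) (σ := 1 / 2 + η) h.om_pos h.sum).2 1 one_pos
  have hl := (left_null' (x := -η) (σ := 1 / 2 + η) h.om_pos h.sum).2 1 one_pos
  have hg := hGG h.cH (x := -η) hD hgr (2 * Real.pi * CW + 4)
  obtain ⟨T, hT1, hT2, hT3, hT4, hT5, hTC⟩ := (hr.and (hl.and (hg.and ((hlim.eventually
    (gt_mem_nhds (show (0 : ℝ) < 1 by norm_num))).and ((eventually_ge_atTop (1 : ℝ)).and
      (eventually_ge_atTop (C + 1))))))).exists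
  have hT0 : 0 < T := by linarith
  set R : ℝ := T ^ (9 / 8 : ℝ) with hR
  have hRT : T ≤ R := Y_ge hT5 le_rfl
  have hR1 : 1 ≤ R := hT5.trans hRT
  obtain ⟨Y, hY1, hY2, hgap⟩ := hheight R hR1
  have hY0 : 0 < Y := by linarith
  have hR32 : (0 : ℝ) < R ^ (3 / 2 : ℝ) := by positivity
  have hgap0 : ∀ z : ℂ, (∃ i, g i z = 0) → |z.re| ≤ 2 → |z.im| ≠ Y := by
    intro z hz hz2 hz3
    have h1 := hgap z hz hz2
    rw [hz3, sub_self, abs_zero] at h1
    have : 0 < c / R ^ (3 / 2 : ℝ) := by positivity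
    linarith
  obtain ⟨F, hF1, hF2⟩ := hCz (Y + 1) (by linarith)
  obtain ⟨S, hSF, hS, hrect⟩ := h.contour T hY0 hgap0 hF2
  have h1 := hT1 Y hY1
  have h2 := hT2 Y hY1
  have h2' := hT3 Y hY1 hY2
  -- the residues
  have hres : ‖2 * Real.pi * I * ∑ z ∈ S, (mm w g z : ℂ) * Kf T 0 z‖ ≤
      2 * Real.pi * CW * T := by
    have h3 : ‖∑ z ∈ S, (mm w g z : ℂ) * Kf T 0 z‖ ≤
        ∑ z ∈ S, |mm w g z| * Real.exp (-(z.im ^ 2 / T ^ 2)) := by
      refine (norm_sum_le _ _).trans (Finset.sum_le_sum fun z hz => ?_)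
      rw [norm_mul, Complex.norm_real, Real.norm_eq_abs, Kf_eq', hS z hz, sub_self,
        W_norm hT0]
      have h4 : Real.exp ((0 ^ 2 - z.im ^ 2) / T ^ 2) * Real.exp (0 * 0) =
          Real.exp (-(z.im ^ 2 / T ^ 2)) := by
        rw [zero_mul, Real.exp_zero, mul_one]
        congr 1
        ring
      rw [h4]
    have h5 := hCW T hT5 S hS
    rw [norm_mul]
    have h8 : ‖(2 * Real.pi * I : ℂ)‖ = 2 * Real.pi := by
      rw [norm_mul, norm_mul, norm_I, mul_one, Complex.norm_real,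
        Real.norm_of_nonneg Real.pi_pos.le, RCLike.norm_ofNat]
    rw [h8]
    calc 2 * Real.pi * ‖∑ z ∈ S, (mm w g z : ℂ) * Kf T 0 z‖
        ≤ 2 * Real.pi * (CW * T) := by
          have := Real.pi_pos
          gcongr
          exact h3.trans h5
      _ = 2 * Real.pi * CW * T := by ring
  -- the horizontal sides
  have hhor : ∀ y : ℝ, |y| = Y → ‖∫ x in (1 / 2 - η)..(1 / 2 + η),
      AA w g ((x : ℂ) + y * I) * Kf T 0 ((x : ℂ) + y * I)‖ ≤
      K₂ * (T ^ (9 / 4 : ℝ) * Real.exp (-(T ^ (1 / 4 : ℝ)))) * T := by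
    intro y hy
    have h3 : ∀ x ∈ Set.uIoc (1 / 2 - η) (1 / 2 + η),
        ‖AA w g ((x : ℂ) + y * I) * Kf T 0 ((x : ℂ) + y * I)‖ ≤
        K₂ * (T ^ (9 / 4 : ℝ) * Real.exp (-(T ^ (1 / 4 : ℝ)))) := by
      intro x hx
      rw [uIoc_of_le (by linarith)] at hx
      have h4 := h.hor (z := (x : ℂ) + y * I) hc hc1 (by linarith) hY1 hY2 hgap
        (by simp; linarith [hx.1]) (by simpa using hx.2) (by simpa using hy)
      have h5 := W_le hT5 (x - 1 / 2) 0 y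
      rw [norm_mul, Kf_eq']
      have e1 : ((x : ℂ) + y * I).re = x := by simp
      have e2 : ((x : ℂ) + y * I).im = y := by simp
      rw [e1, e2]
      have h6 : Real.exp ((x - 1 / 2) ^ 2 + (x - 1 / 2) * 0) ≤ Real.exp (η ^ 2) := by
        apply Real.exp_le_exp.2
        have h7 : (x - 1 / 2) ^ 2 ≤ η ^ 2 := sq_le_sq' (by linarith [hx.1]) (by linarith [hx.2])
        linarith
      have h7 : Real.exp (-(y ^ 2 / T ^ 2)) ≤ Real.exp (-(T ^ (1 / 4 : ℝ))) := by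
        apply Real.exp_le_exp.2
        have := pow_aux hT5 hY1
        rw [← sq_abs y, hy]
        linarith
      have h8 : R ^ 2 = T ^ (9 / 4 : ℝ) := by
        rw [hR, ← Real.rpow_natCast, ← Real.rpow_mul hT0.le]
        norm_num
      rw [h8] at h4
      calc _ ≤ (32 * C / (η * c) * T ^ (9 / 4 : ℝ)) *
            (Real.exp (η ^ 2) * Real.exp (-(T ^ (1 / 4 : ℝ)))) := by
            refine mul_le_mul h4 (h5.trans (by gcongr)) (norm_nonneg _) (by positivity)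
        _ = _ := by rw [hK₂]; ring
    have h4 := intervalIntegral.norm_integral_le_of_norm_le_const h3
    refine h4.trans ?_
    have h5 : |1 / 2 + η - (1 / 2 - η)| ≤ T := by
      rw [abs_of_nonneg (by linarith)]
      linarith
    gcongr
  have hh1 := hhor (-Y) (by rw [abs_neg, abs_of_pos hY0])
  have hh2 := hhor Y (abs_of_pos hY0)
  -- the vertical sides
  have hright : (∫ y in (-Y)..Y, AA w g (((1 / 2 + η : ℝ) : ℂ) + y * I) *
      Kf T 0 (((1 / 2 + η : ℝ) : ℂ) + y * I)) =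
      -∫ t in (-Y)..Y, Ds a om (((1 / 2 + η : ℝ) : ℂ) + t * I) * W T η 0 t := by
    rw [← intervalIntegral.integral_neg]
    refine intervalIntegral.integral_congr fun t _ => ?_
    rw [(h.right _ (by simp; linarith)).2, Kf_eq]
    ring
  have hcl : Continuous fun t : ℝ => Ds a om (((1 / 2 + η : ℝ) : ℂ) - t * I) :=
    (left_null' (x := -η) (σ := 1 / 2 + η) h.om_pos h.sum).1
  have hleft : (∫ y in (-Y)..Y, AA w g (((1 / 2 - η : ℝ) : ℂ) + y * I) *
      Kf T 0 (((1 / 2 - η : ℝ) : ℂ) + y * I)) =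
      (∫ t in (-Y)..Y, Ds a om (((1 / 2 + η : ℝ) : ℂ) - t * I) * W T (-η) 0 t) +
      ∫ t in (-Y)..Y, H (((1 / 2 - η : ℝ) : ℂ) + t * I) * W T (-η) 0 t := by
    rw [← intervalIntegral.integral_add (ii hcl T _ _) (ii h.cH T _ _)]
    refine intervalIntegral.integral_congr fun t _ => ?_
    rw [show (1 / 2 - η : ℝ) = 1 / 2 + (-η) by ring, Kf_eq,
      (h.left _ (by simp; linarith) (by simp; linarith)).2, ← add_mul]
    congr 3
    push_cast
    ring
  unfold rect at hrect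
  rw [hright, hleft] at hrect
  set Rt := ∫ t in (-Y)..Y, Ds a om (((1 / 2 + η : ℝ) : ℂ) + t * I) * W T η 0 t with hRt
  set Lt := ∫ t in (-Y)..Y, Ds a om (((1 / 2 + η : ℝ) : ℂ) - t * I) * W T (-η) 0 t with hLt
  set Ht := ∫ t in (-Y)..Y, H (((1 / 2 - η : ℝ) : ℂ) + t * I) * W T (-η) 0 t with hHt
  set h₁ := ∫ x in (1 / 2 - η)..(1 / 2 + η), AA w g ((x : ℂ) + ((-Y : ℝ) : ℂ) * I) *
    Kf T 0 ((x : ℂ) + ((-Y : ℝ) : ℂ) * I) with hh₁
  set h₂ := ∫ x in (1 / 2 - η)..(1 / 2 + η), AA w g ((x : ℂ) + (Y : ℂ) * I) *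
    Kf T 0 ((x : ℂ) + (Y : ℂ) * I) with hh₂
  set Q := 2 * Real.pi * I * ∑ z ∈ S, (mm w g z : ℂ) * Kf T 0 z with hQ
  have hR' : Ht = I * Q - I * h₁ + I * h₂ - Lt - Rt := by
    have h3 : Q = h₁ - h₂ + I * (-Rt) - I * (Lt + Ht) := by
      rw [← hrect]
      simp only [smul_eq_mul]
    rw [h3]
    have : I * I = -1 := I_mul_I
    linear_combination (Rt + Lt + Ht) * this
  have hRn : ‖Ht‖ ≤ ‖Q‖ + ‖h₁‖ + ‖h₂‖ + ‖Lt‖ + ‖Rt‖ := by
    rw [hR']
    refine (norm_sub_le _ _).trans (add_le_add ?_ le_rfl)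
    refine (norm_sub_le _ _).trans ?_
    refine add_le_add ((norm_add_le _ _).trans (add_le_add ((norm_sub_le _ _).trans
      (add_le_add ?_ ?_)) ?_)) le_rfl <;> rw [norm_mul, norm_I, one_mul]
  have h3 : 2 * (K₂ * (T ^ (9 / 4 : ℝ) * Real.exp (-(T ^ (1 / 4 : ℝ)))) * T) ≤ 1 * T := by
    have : 2 * (K₂ * (T ^ (9 / 4 : ℝ) * Real.exp (-(T ^ (1 / 4 : ℝ)))) * T) =
      (2 * (K₂ * (T ^ (9 / 4 : ℝ) * Real.exp (-(T ^ (1 / 4 : ℝ)))))) * T := by ring
    rw [this]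
    gcongr
  nlinarith

end Pool.Agent.N898.BU
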