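import Pool.Agent.N898.BU.Stm2
import Pool.Agent.N898.BU.Fin

/-!
# The two series
-/

set_option autoImplicit false

namespace Pool.Agent.N898.BU

open Filter Topology Complex Set Asymptotics
open Pool.Agent.N210.FV

variable {S : Finset ℕ} {β : PS S × ℕ → ℝ} {d : ℝ}

/-- the positive part -/
noncomputable def ca (β : PS S × ℕ → ℝ) (d : ℝ) (i : PS S × ℕ) : ℝ :=
  (if i.2 = 0 then max (β i - d) 0 else β i) * Real.log (i.1 : ℕ)

/-- the negative part at the primes -/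
noncomputable def cu (β : PS S × ℕ → ℝ) (d : ℝ) (i : PS S × ℕ) : ℝ :=
  if i.2 = 0 then max (d - β i) 0 * Real.log (i.1 : ℕ) else 0

/-- the higher powers -/
noncomputable def cv (i : PS S × ℕ) : ℝ := if i.2 = 0 then 0 else Real.log (i.1 : ℕ)

/-- the negative part -/
noncomputable def cq (β : PS S × ℕ → ℝ) (d : ℝ) (i : PS S × ℕ) : ℝ := cu β d i + d * cv i

theorem ca_cq (i : PS S × ℕ) : ca β d i - cq β d i = (β i - d) * Real.log (i.1 : ℕ) := by
  unfold ca cq cu cv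
  split_ifs with h
  · have : max (β i - d) 0 - max (d - β i) 0 = β i - d := by
      rcases le_total (β i) d with h1 | h1
      · rw [max_eq_right (by linarith), max_eq_left (by linarith)]
        ring
      · rw [max_eq_left (by linarith), max_eq_right (by linarith)]
        ring
    linear_combination Real.log (i.1 : ℕ) * this
  · ring

theorem ca_nonneg (hβ : ∀ i, 0 ≤ β i) (i : PS S × ℕ) : 0 ≤ ca β d i := by
  unfold ca
  refine mul_nonneg ?_ i.1.log_pos.le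
  split_ifs
  · exact le_max_right _ _
  · exact hβ i

theorem ca_le (hd : 0 ≤ d) (hβ : ∀ i, 0 ≤ β i) (i : PS S × ℕ) :
    ca β d i ≤ β i * Real.log (i.1 : ℕ) := by
  unfold ca
  refine mul_le_mul_of_nonneg_right ?_ i.1.log_pos.le
  split_ifs
  · exact max_le (by linarith) (hβ i)
  · exact le_rfl

theorem cu_nonneg (i : PS S × ℕ) : 0 ≤ cu β d i := by
  unfold cu
  split_ifs
  · exact mul_nonneg (le_max_right _ _) i.1.log_pos.le
  · exact le_rfl

theorem cv_nonneg (i : PS S × ℕ) : 0 ≤ cv i := by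
  unfold cv
  split_ifs
  · exact le_rfl
  · exact i.1.log_pos.le

/-- the exceptional primes -/
def PP (β : PS S × ℕ → ℝ) (d : ℝ) : Set ℕ := {p | ∃ h : p.Prime ∧ p ∉ S, β (⟨p, h⟩, 0) < d}

/-- the embedding of the exceptional primes -/
def em (β : PS S × ℕ → ℝ) (d : ℝ) (p : PP β d) : PS S × ℕ := (⟨p, p.2.choose⟩, 0)

theorem em_inj : Function.Injective (em β d) := by
  intro p q h
  have h1 := congrArg (fun x : PS S × ℕ => (x.1 : ℕ)) h
  exact Subtype.ext h1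

/-- the majorant -/
noncomputable def cw (β : PS S × ℕ → ℝ) (d σ : ℝ) (i : PS S × ℕ) : ℝ :=
  open Classical in
  if i.2 = 0 ∧ β i < d then Real.log (i.1 : ℕ) * Real.exp (-(σ * oo S 1 i)) else 0

theorem cw_em (σ : ℝ) (p : PP β d) : cw β d σ (em β d p) =
    Real.log (p : ℕ) * ((p : ℕ) : ℝ) ^ (-σ) := by
  have hp : (0 : ℝ) < ((p : ℕ) : ℝ) := by exact_mod_cast p.2.choose.1.pos
  unfold cw em
  rw [if_pos ⟨rfl, p.2.choose_spec⟩, Real.rpow_def_of_pos hp]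
  unfold oo
  simp only
  congr 2
  push_cast
  ring

theorem cw_off (σ : ℝ) {i : PS S × ℕ} (hi : i ∉ Set.range (em β d)) : cw β d σ i = 0 := by
  unfold cw
  rw [if_neg]
  rintro ⟨h1, h2⟩
  apply hi
  obtain ⟨p, k⟩ := i
  simp only at h1
  subst h1
  exact ⟨⟨p, p.2, h2⟩, rfl⟩

theorem cu_le (hd : 0 ≤ d) (hβ : ∀ i, 0 ≤ β i) (σ : ℝ) (i : PS S × ℕ) :
    cu β d i * Real.exp (-(σ * oo S 1 i)) ≤ d * cw β d σ i := by
  unfold cu cw
  have hl := i.1.log_pos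
  have he := Real.exp_pos (-(σ * oo S 1 i))
  by_cases h1 : i.2 = 0
  · by_cases h2 : β i < d
    · rw [if_pos h1, if_pos ⟨h1, h2⟩, ← mul_assoc]
      refine mul_le_mul_of_nonneg_right (mul_le_mul_of_nonneg_right ?_ hl.le) he.le
      exact max_le (by linarith [hβ i]) hd
    · rw [if_pos h1, if_neg (fun h => h2 h.2), max_eq_right (by linarith [not_lt.1 h2])]
      simp
  · rw [if_neg h1, if_neg (fun h => h1 h.1)]
    simp

theorem cu_data (hCS : S_CS) (hd : 0 ≤ d) (hβ : ∀ i, 0 ≤ β i)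
    (hP : (fun x : ℝ => ((({p : ℕ | p ∈ PP β d ∧ (p : ℝ) ≤ x}.ncard : ℕ)) : ℝ)) =o[atTop]
      fun x : ℝ => Real.sqrt x / Real.log x) :
    (∀ σ : ℝ, 1 / 2 < σ → Summable fun i => cu β d i * Real.exp (-(σ * oo S 1 i))) ∧
    Tendsto (fun δ : ℝ => δ * ∑' i, cu β d i * Real.exp (-((1 / 2 + δ) * oo S 1 i)))
      (𝓝[>] 0) (𝓝 0) := by
  obtain ⟨h1, h2⟩ := hCS (P := PP β d) (fun p hp => hp.choose.1.two_le) hP
  have h3 : ∀ σ : ℝ, 1 / 2 < σ → Summable (cw β d σ) := by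
    intro σ hσ
    rw [← em_inj.summable_iff (fun x hx => cw_off σ hx)]
    refine (h1 σ hσ).congr fun p => ?_
    exact (cw_em σ p).symm
  have h4 : ∀ σ : ℝ, ∑' i, cw β d σ i = ∑' p : PP β d, Real.log (p : ℕ) * ((p : ℕ) : ℝ) ^ (-σ) := by
    intro σ
    rw [← em_inj.tsum_eq (f := cw β d σ)]
    · exact tsum_congr fun p => cw_em σ p
    · intro x hx
      by_contra h
      exact hx (cw_off σ h)
  have h5 : ∀ σ : ℝ, 1 / 2 < σ → Summable fun i => cu β d i * Real.exp (-(σ * oo S 1 i)) := by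
    intro σ hσ
    exact Summable.of_nonneg_of_le (fun i => mul_nonneg (cu_nonneg i) (Real.exp_pos _).le)
      (fun i => cu_le hd hβ σ i) ((h3 σ hσ).mul_left d)
  refine ⟨h5, ?_⟩
  have h6 := h2.const_mul d
  rw [mul_zero] at h6
  refine tendsto_of_tendsto_of_tendsto_of_le_of_le' tendsto_const_nhds h6 ?_ ?_
  · filter_upwards [self_mem_nhdsWithin] with δ hδ
    have hδ : (0 : ℝ) < δ := hδ
    exact mul_nonneg hδ.le (tsum_nonneg fun i => mul_nonneg (cu_nonneg i) (Real.exp_pos _).le)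
  · filter_upwards [self_mem_nhdsWithin] with δ hδ
    have hδ : (0 : ℝ) < δ := hδ
    have h7 := (h5 (1 / 2 + δ) (by linarith)).tsum_le_tsum (fun i => cu_le hd hβ (1 / 2 + δ) i)
      ((h3 (1 / 2 + δ) (by linarith)).mul_left d)
    rw [tsum_mul_left, h4] at h7
    calc _ ≤ δ * (d * ∑' p : PP β d, Real.log (p : ℕ) * ((p : ℕ) : ℝ) ^ (-(1 / 2 + δ))) := by gcongr
      _ = _ := by ring

theorem norm_Ds_le {a : PS S × ℕ → ℝ} (ha : ∀ i, 0 ≤ a i) {s : ℂ}
    (hs : Summable fun i => a i * Real.exp (-(s.re * oo S 1 i))) :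
    ‖Ds (fun i => (a i : ℂ)) (oo S 1) s‖ ≤ ∑' i, a i * Real.exp (-(s.re * oo S 1 i)) := by
  unfold Ds
  refine tsum_of_norm_bounded hs.hasSum fun i => ?_
  rw [norm_mul, Complex.norm_real, Real.norm_of_nonneg (ha i), Complex.norm_exp, neg_mul, neg_re,
    re_ofReal_mul, mul_comm (oo S 1 i)]

theorem Ds_summ {a : PS S × ℕ → ℝ} (ha : ∀ i, 0 ≤ a i) {s : ℂ}
    (hs : Summable fun i => a i * Real.exp (-(s.re * oo S 1 i))) :
    Summable fun i => (a i : ℂ) * exp (-(oo S 1 i : ℂ) * s) := by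
  refine Summable.of_norm (hs.congr fun i => ?_)
  rw [norm_mul, Complex.norm_real, Real.norm_of_nonneg (ha i), Complex.norm_exp, neg_mul, neg_re,
    re_ofReal_mul, mul_comm (oo S 1 i)]

theorem Ds_dOn {a : PS S × ℕ → ℝ} (ha : ∀ i, 0 ≤ a i) {σ₀ : ℝ}
    (hs : ∀ σ : ℝ, σ₀ < σ → Summable fun i => a i * Real.exp (-(σ * oo S 1 i))) :
    DifferentiableOn ℂ (Ds (fun i => (a i : ℂ)) (oo S 1)) {s | σ₀ < s.re} := by
  intro s hs2
  have hs2 : σ₀ < s.re := hs2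
  have h1 := Ds_hasDeriv (b := fun i => (a i : ℂ)) (om := oo S 1) (σ := (σ₀ + s.re) / 2)
    ((hs ((σ₀ + s.re) / 2) (by linarith)).congr fun i => by
      rw [Complex.norm_real, Real.norm_of_nonneg (ha i), mul_comm (oo S 1 i)])
    (fun i => oo_nonneg 1 i) (s := s) (by linarith)
  exact h1.differentiableAt.differentiableWithinAt

theorem cq_data (hCS : S_CS) (hQL : S_QL) (hd : 0 ≤ d) (hβ : ∀ i, 0 ≤ β i)
    (hP : (fun x : ℝ => ((({p : ℕ | p ∈ PP β d ∧ (p : ℝ) ≤ x}.ncard : ℕ)) : ℝ)) =o[atTop]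
      fun x : ℝ => Real.sqrt x / Real.log x) :
    (∀ σ : ℝ, 1 / 2 < σ → Summable fun i => cq β d i * Real.exp (-(σ * oo S 1 i))) ∧
    ∀ τ : ℝ, Tendsto (fun δ : ℝ => (δ : ℂ) * Ds (fun i => (cq β d i : ℂ)) (oo S 1)
    (1 / 2 + δ + τ * I)) (𝓝[>] 0) (𝓝 (if τ = 0 then ((d / 2 : ℝ) : ℂ) else 0)) := by
  obtain ⟨h1, h2⟩ := cu_data hCS hd hβ hP
  obtain ⟨h3, h4⟩ := hQL S
  have h3' : ∀ σ : ℝ, 1 / 2 < σ → Summable fun i : PS S × ℕ => cv i *
      Real.exp (-(σ * oo S 1 i)) := h3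
  refine ⟨fun σ hσ => ?_, fun τ => ?_⟩
  · refine ((h1 σ hσ).add ((h3' σ hσ).mul_left d)).congr fun i => ?_
    unfold cq
    ring
  · have h5 : Tendsto (fun δ : ℝ => (δ : ℂ) * Ds (fun i => (cu β d i : ℂ)) (oo S 1)
        (1 / 2 + δ + τ * I)) (𝓝[>] 0) (𝓝 0) := by
      refine squeeze_zero_norm' ?_ h2
      filter_upwards [self_mem_nhdsWithin] with δ hδ
      have hδ : (0 : ℝ) < δ := hδ
      have hre : (1 / 2 + (δ : ℂ) + τ * I).re = 1 / 2 + δ := by simp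
      rw [norm_mul, Complex.norm_real, Real.norm_of_nonneg hδ.le]
      have := norm_Ds_le (a := cu β d) cu_nonneg (s := 1 / 2 + (δ : ℂ) + τ * I) (by
        rw [hre]
        exact h1 _ (by linarith))
      rw [hre] at this
      gcongr
    have h6 := h5.add ((h4 τ).const_mul (d : ℂ))
    have e : (0 : ℂ) + d * (if τ = 0 then 1 / 2 else 0) =
        if τ = 0 then ((d / 2 : ℝ) : ℂ) else 0 := by
      split_ifs
      · push_cast
        ring
      · simp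
    rw [e] at h6
    refine h6.congr' ?_
    filter_upwards [self_mem_nhdsWithin] with δ hδ
    have hδ : (0 : ℝ) < δ := hδ
    have hre : (1 / 2 + (δ : ℂ) + τ * I).re = 1 / 2 + δ := by simp
    have e1 : Ds (fun i => (cq β d i : ℂ)) (oo S 1) (1 / 2 + δ + τ * I) =
        Ds (fun i => (cu β d i : ℂ)) (oo S 1) (1 / 2 + δ + τ * I) +
        d * Ds (fun i : PS S × ℕ => ((cv i : ℝ) : ℂ)) (oo S 1) (1 / 2 + δ + τ * I) := by
      have s1 := Ds_summ (a := cu β d) cu_nonneg (s := 1 / 2 + (δ : ℂ) + τ * I) (by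
        rw [hre]
        exact h1 _ (by linarith))
      have s2 := Ds_summ (a := fun i : PS S × ℕ => cv i) cv_nonneg
        (s := 1 / 2 + (δ : ℂ) + τ * I) (by
        rw [hre]
        exact h3' _ (by linarith))
      unfold Ds
      rw [← tsum_mul_left, ← s1.tsum_add (s2.mul_left _)]
      refine tsum_congr fun i => ?_
      unfold cq
      push_cast
      ring
    rw [e1]
    have e2 : Ds (fun i : PS S × ℕ => ((cv i : ℝ) : ℂ)) (oo S 1) (1 / 2 + δ + τ * I) =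
        Ds (fun i : PS S × ℕ => ((if i.2 = 0 then 0 else Real.log (i.1 : ℕ) : ℝ) : ℂ)) (oo S 1)
          (1 / 2 + δ + τ * I) := rfl
    rw [e2]
    ring

theorem cq_nonneg (hd : 0 ≤ d) (i : PS S × ℕ) : 0 ≤ cq β d i :=
  add_nonneg (cu_nonneg i) (mul_nonneg hd (cv_nonneg i))

/-- a monotone function with a simple pole -/
theorem bd_of_lim {a : PS S × ℕ → ℝ} (ha : ∀ i, 0 ≤ a i)
    (hs : ∀ σ : ℝ, 1 / 2 < σ → Summable fun i => a i * Real.exp (-(σ * oo S 1 i))) {L : ℂ}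
    (hL : Tendsto (fun δ : ℝ => (δ : ℂ) * Ds (fun i => (a i : ℂ)) (oo S 1)
      (1 / 2 + δ + (0 : ℝ) * I)) (𝓝[>] 0) (𝓝 L)) :
    ∃ C : ℝ, 0 ≤ C ∧ ∀ δ : ℝ, 0 < δ → δ ≤ 1 →
      ∑' i, a i * Real.exp (-((1 / 2 + δ) * oo S 1 i)) ≤ C / δ := by
  have h1 := hL.norm.eventually (gt_mem_nhds (show ‖L‖ < ‖L‖ + 1 by linarith))
  rw [eventually_nhdsWithin_iff, Metric.eventually_nhds_iff] at h1
  obtain ⟨ε, hε, h2⟩ := h1
  have h3 : ∀ δ : ℝ, 0 < δ → δ < ε → ∑' i, a i * Real.exp (-((1 / 2 + δ) * oo S 1 i)) ≤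
      (‖L‖ + 1) / δ := by
    intro δ hδ hδ2
    have h4 := h2 (y := δ) (by rw [Real.dist_eq, sub_zero, abs_of_pos hδ]; exact hδ2) hδ
    have e : (1 / 2 + (δ : ℂ) + (0 : ℝ) * I) = ((1 / 2 + δ : ℝ) : ℂ) := by push_cast; ring
    have h0 : 0 ≤ ∑' i, a i * Real.exp (-((1 / 2 + δ) * oo S 1 i)) :=
      tsum_nonneg fun i => mul_nonneg (ha i) (Real.exp_pos _).le
    rw [norm_mul, Complex.norm_real, Real.norm_of_nonneg hδ.le, e, Ds_real, Complex.norm_real,
      Real.norm_of_nonneg h0] at h4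
    rw [le_div_iff₀ hδ]
    linarith
  set δ₀ : ℝ := ε / 2 with hδ₀
  have hδ₀0 : 0 < δ₀ := by positivity
  set K : ℝ := ∑' i, a i * Real.exp (-((1 / 2 + δ₀) * oo S 1 i)) with hK
  have hK0 : 0 ≤ K := tsum_nonneg fun i => mul_nonneg (ha i) (Real.exp_pos _).le
  refine ⟨‖L‖ + 1 + K, by positivity, fun δ hδ hδ2 => ?_⟩
  rcases lt_or_ge δ ε with h4 | h4
  · exact (h3 δ hδ h4).trans (div_le_div_of_nonneg_right (by linarith) hδ.le)
  · have h5 : ∑' i, a i * Real.exp (-((1 / 2 + δ) * oo S 1 i)) ≤ K := by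
      refine (hs (1 / 2 + δ) (by linarith)).tsum_le_tsum (fun i => ?_) (hs (1 / 2 + δ₀) (by linarith))
      exact exp_mono (ha i) (oo_nonneg 1 i) (by linarith)
    rw [le_div_iff₀ hδ]
    have := norm_nonneg L
    nlinarith

end Pool.Agent.N898.BU
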