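import Pool.Agent.N898.BU.Stm

/-!
# Statements of the leaves, second part
-/

set_option autoImplicit false

namespace Pool.Agent.N898.BU

open Filter Topology Complex MeasureTheory Set Asymptotics
open Pool.Agent.N210.FV
open scoped ComplexConjugate

/-- from the Euler product of a Rankin-Selberg L-function to the Dirichlet series -/
def S_EU : Prop := ∀ {S : Finset ℕ} {n : ℕ} {α : ℕ → ℕ → ℂ} {R : ℂ → ℂ}, Differentiable ℂ R →
    (∀ p : ℕ, p.Prime → p ∉ S → ∀ i < n, ‖α p i‖ ^ 2 < p) →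
    (∀ s : ℂ, 1 < s.re → Tendsto (fun X : ℕ =>
      ∏ p ∈ (Finset.range X).filter (fun p => p.Prime ∧ p ∉ S),
        ∏ i ∈ Finset.range n, ∏ j ∈ Finset.range n,
          (1 - α p i * conj (α p j) * (p : ℂ) ^ (-s))⁻¹) atTop (𝓝 (R s / (s - 1)))) →
    (∀ x : ℝ, 1 < x → Summable fun i : PS S × ℕ =>
      ‖∑ j ∈ Finset.range n, α i.1 j ^ (i.2 + 1)‖ ^ 2 * Real.log (i.1 : ℕ) *
        Real.exp (-(x * oo S 1 i))) ∧
    ∀ s : ℂ, 1 < s.re → R s ≠ 0 ∧ logDeriv R s - (s - 1)⁻¹ =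
      -Ds (fun i : PS S × ℕ => ((‖∑ j ∈ Finset.range n, α i.1 j ^ (i.2 + 1)‖ ^ 2 *
        Real.log (i.1 : ℕ) : ℝ) : ℂ)) (oo S 1) s

/-- the Euler factors of the zeta function at the primes of `S` -/
noncomputable def lz (S : Finset ℕ) : List (ℕ × ℂ) :=
  (S.filter Nat.Prime).toList.map fun p => (p, 1)

/-- the Euler product of the zeta function without the primes of `S` -/
def S_ZE : Prop := ∀ (S : Finset ℕ) (s : ℂ), 1 < s.re → Tendsto (fun X : ℕ =>
      ∏ p ∈ (Finset.range X).filter (fun p => p.Prime ∧ p ∉ S),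
        ∏ _i ∈ Finset.range 1, ∏ _j ∈ Finset.range 1,
          (1 - 1 * conj (1 : ℂ) * (p : ℂ) ^ (-s))⁻¹) atTop
      (𝓝 (riemannZeta₁ s * ef (lz S) s / (s - 1)))

end Pool.Agent.N898.BU
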