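import Pool.Agent.N898.BU.Asm
import Pool.Agent.N898.BU.EU2
import Pool.Agent.N945.BU.ZF
import Pool.Agent.N769.BU.ZE

/-!
# The zeta function as a member of the family
-/

set_option autoImplicit false

namespace Pool.Agent.N898.BU

open Filter Topology Complex Set Asymptotics
open Pool.Agent.N210.FV
open scoped ComplexConjugate

/-- `(s - 1) ζ(s)` without the Euler factors at the primes of `S` -/
noncomputable def Zs (S : Finset ℕ) (s : ℂ) : ℂ := riemannZeta₁ s * ef (lz S) s

theorem lz_mem {S : Finset ℕ} {x : ℕ × ℂ} (hx : x ∈ lz S) : x.1.Prime ∧ x.1 ∈ S := by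
  unfold lz at hx
  rw [List.mem_map] at hx
  obtain ⟨p, hp, rfl⟩ := hx
  rw [Finset.mem_toList, Finset.mem_filter] at hp
  exact ⟨hp.2, hp.1⟩

theorem ef_lz_ne (S : Finset ℕ) {s : ℂ} (hs : 0 < s.re) : ef (lz S) s ≠ 0 := by
  rw [Pool.Agent.N769.BU.ef_lz, Finset.prod_ne_zero_iff]
  intro p hp
  have hp' := (Finset.mem_filter.1 hp).2
  have hp1 : (1 : ℝ) < p := by exact_mod_cast hp'.one_lt
  intro h
  have h1 : (p : ℂ) ^ (-s) = 1 := by linear_combination -h
  have h2 : ‖(p : ℂ) ^ (-s)‖ < 1 := by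
    rw [← ofReal_natCast, Complex.norm_cpow_eq_rpow_re_of_pos (by linarith), neg_re]
    exact Real.rpow_lt_one_of_one_lt_of_neg hp1 (by linarith)
  rw [h1, norm_one] at h2
  exact lt_irrefl _ h2

theorem Zs_ne (S : Finset ℕ) {β : ℝ} (h0 : 1 / 2 < β) (h1 : β ≤ 1) : Zs S β ≠ 0 := by
  have hr : (0 : ℝ) < (β : ℂ).re := by
    rw [ofReal_re]
    linarith
  refine mul_ne_zero ?_ (ef_lz_ne S hr)
  rcases h1.lt_or_eq with h2 | h2
  · intro h3
    exact Pool.Agent.H437R2.z1_zero_im hr h3 (ofReal_im β)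
  · rw [h2]
    exact z1_ne (by simp)

theorem Zs_ent (S : Finset ℕ) : Ent (Zs S) :=
  Pool.Agent.N945.BU.main_ZF.1.mul (ef_ent fun _ hx => (lz_mem hx).1.one_lt)

theorem rs_zeta (S : Finset ℕ) : RS S 1 (fun _ _ => 1) 1 (Zs S) := by
  have hE := eu_r (S := S) (n := 1) (α := fun _ _ => 1) (R := Zs S) 1 (Zs_ent S).diff
    (fun p hp _ i _ => by
      rw [norm_one, one_pow]
      exact_mod_cast hp.one_lt)
    (fun s hs => by
      have := Pool.Agent.N769.BU.main_ZE S s hs
      rw [pow_one]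
      exact this)
  refine ⟨Zs_ent S, ?_, fun _ _ => zero_le_one, ?_, ?_, ?_⟩
  · have := Zs_ne S (β := 1) (by norm_num) le_rfl
    rwa [ofReal_one] at this
  · intro x hx
    refine (hE.1 x hx).congr fun i => ?_
    simp
  · intro s hs
    rw [hE.2 s hs]
    congr 2
    funext i
    simp
  · refine ⟨[0], lz S, [], 1, 1, one_pos, one_ne_zero, rfl, fun x hx => lz_mem hx, ?_, ?_⟩
    · intro x hx
      simp at hx
    · intro s
      have h := Pool.Agent.N945.BU.main_ZF.2 s
      have e : ∀ s, ef [] s = 1 := fun s => by simp [ef]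
      unfold Zs
      rw [e, e, ofReal_one, one_cpow, one_cpow, pow_one, pow_one]
      linear_combination (ef (lz S) s * ef (lz S) (1 - s)) * h

end Pool.Agent.N898.BU
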